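import Mathlib

/-!
# Borel determinacy, part A: plays, trees, strategies, clopen games

Positions are reversed lists of moves.  Player `p` (a Boolean) moves at the times `n` with
`n.bodd = p`, so player `false` moves first.
-/

namespace V11256.BD

variable {A : Type}

/-- reversed list of the first `n` moves of a play -/
def pos (x : ℕ → A) : ℕ → List A
  | 0 => []
  | n + 1 => x n :: pos x n

@[simp] theorem pos_zero (x : ℕ → A) : pos x 0 = [] := rfl
theorem pos_succ (x : ℕ → A) (n : ℕ) : pos x (n + 1) = x n :: pos x n := rfl

@[simp] theorem length_pos (x : ℕ → A) (n : ℕ) : (pos x n).length = n := by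
  induction n with
  | zero => rfl
  | succ n ih => simp [pos_succ, ih]

theorem pos_suffix (x : ℕ → A) {m n : ℕ} (h : m ≤ n) : pos x m <:+ pos x n := by
  induction n, h using Nat.le_induction with
  | base => exact List.suffix_rfl
  | succ n _ ih => exact ih.trans (List.suffix_cons _ _)

theorem suffix_pos {x : ℕ → A} {t : List A} {n : ℕ} (h : t <:+ pos x n) :
    t = pos x t.length ∧ t.length ≤ n := by
  have hl : t.length ≤ n := by simpa using h.length_le
  refine ⟨?_, hl⟩
  have h2 := pos_suffix x hl
  rcases List.suffix_or_suffix_of_suffix h h2 with h3 | h3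
  · exact h3.eq_of_length (by simp)
  · exact (h3.eq_of_length (by simp)).symm

theorem pos_map {B : Type} (f : A → B) (x : ℕ → A) (n : ℕ) :
    (pos x n).map f = pos (fun m => f (x m)) n := by
  induction n with
  | zero => rfl
  | succ n ih => simp [pos_succ, ih]

theorem pos_inj {x y : ℕ → A} {n : ℕ} (h : pos x n = pos y n) : ∀ m < n, x m = y m := by
  induction n with
  | zero => intro m hm; omega
  | succ n ih =>
    intro m hm
    rw [pos_succ, pos_succ, List.cons.injEq] at h
    rcases Nat.lt_succ_iff_lt_or_eq.1 hm with h1 | h1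
    · exact ih h.2 m h1
    · rw [h1]; exact h.1

theorem pos_congr {x y : ℕ → A} {n : ℕ} (h : ∀ m < n, x m = y m) : pos x n = pos y n := by
  induction n with
  | zero => rfl
  | succ n ih =>
    rw [pos_succ, pos_succ, h n (Nat.lt_succ_self n), ih (fun m hm => h m (by omega))]

/-- nonempty pruned trees of (reversed) positions -/
structure IsTree (T : Set (List A)) : Prop where
  nil : [] ∈ T
  tail : ∀ a s, a :: s ∈ T → s ∈ T
  ext : ∀ s ∈ T, ∃ a, a :: s ∈ T

theorem IsTree.suffix {T : Set (List A)} (h : IsTree T) {s t : List A} (hs : s <:+ t)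
    (ht : t ∈ T) : s ∈ T := by
  induction t with
  | nil => rw [List.suffix_nil.1 hs]; exact ht
  | cons a t ih =>
    rcases List.suffix_cons_iff.1 hs with h1 | h1
    · rw [h1]; exact ht
    · exact ih h1 (h.tail _ _ ht)

/-- `x` is an infinite branch of `T` -/
def Br (T : Set (List A)) (x : ℕ → A) : Prop := ∀ n, pos x n ∈ T

/-- legal strategies of player `p` -/
def Leg (T : Set (List A)) (p : Bool) (σ : List A → A) : Prop :=
  ∀ s ∈ T, s.length.bodd = p → σ s :: s ∈ T

/-- `x` follows `σ` -/
def Fol (p : Bool) (σ : List A → A) (x : ℕ → A) : Prop :=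
  ∀ n : ℕ, n.bodd = p → x n = σ (pos x n)

def Wins (T : Set (List A)) (p : Bool) (W : Set (ℕ → A)) (σ : List A → A) : Prop :=
  Leg T p σ ∧ ∀ x, Br T x → Fol p σ x → x ∈ W

def Det (T : Set (List A)) (W : Set (ℕ → A)) : Prop :=
  (∃ σ, Wins T false W σ) ∨ (∃ σ, Wins T true Wᶜ σ)

/-- `p` can force, inside `T`, to reach `E` -/
inductive Win (T : Set (List A)) (E : Set (List A)) (p : Bool) : List A → Prop
  | here (s) : s ∈ E → Win T E p s
  | mine (s) (a : A) : s.length.bodd = p → a :: s ∈ T → Win T E p (a :: s) → Win T E p s
  | opp (s) : s.length.bodd ≠ p → (∀ a, a :: s ∈ T → Win T E p (a :: s)) → Win T E p s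

theorem Win.strat [Nonempty A] {T E : Set (List A)} {p : Bool} {q : List A}
    (h : Win T E p q) :
    ∃ τ : List A → A, ∀ x : ℕ → A, pos x q.length = q →
      (∀ n, q.length ≤ n → pos x n ∈ T) →
      (∀ n, q.length ≤ n → n.bodd = p → τ (pos x n) :: pos x n ∈ T → x n = τ (pos x n)) →
      ∃ n, q.length ≤ n ∧ pos x n ∈ E := by
  classical
  induction h with
  | here s hs =>
    exact ⟨fun _ => Classical.arbitrary A, fun x hx _ _ => ⟨s.length, le_rfl, hx.symm ▸ hs⟩⟩
  | mine s a hp ha _ ih =>
    obtain ⟨τ, hτ⟩ := ih
    refine ⟨fun t => if t = s then a else τ t, fun x hx hT hf => ?_⟩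
    have h1 : x s.length = a := by
      have := hf s.length le_rfl hp (by simp only [hx, if_true]; exact ha)
      simpa [hx] using this
    have h2 : pos x (a :: s).length = a :: s := by
      rw [List.length_cons, pos_succ, h1, hx]
    obtain ⟨n, hn, hE⟩ := hτ x h2 (fun n hn => hT n (by simp at hn; omega)) (by
      intro n hn hp' hT'
      have hne : pos x n ≠ s := by
        intro h; have := congrArg List.length h; simp at this hn; omega
      have := hf n (by simp at hn; omega) hp' (by simp only [if_neg hne]; exact hT')
      simpa [if_neg hne] using this)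
    exact ⟨n, by simp at hn; omega, hE⟩
  | opp s hp _ ih =>
    choose! τ hτ using ih
    refine ⟨fun t => if h : ∃ a, a :: s <:+ t ∧ a :: s ∈ T then τ (Classical.choose h) t
      else Classical.arbitrary A, fun x hx hT hf => ?_⟩
    have h0 : x s.length :: s = pos x (s.length + 1) := by rw [pos_succ, hx]
    have hT1 : x s.length :: s ∈ T := by rw [h0]; exact hT _ (by omega)
    have h2 : pos x (x s.length :: s).length = x s.length :: s := by
      rw [List.length_cons, h0]
    obtain ⟨n, hn, hE⟩ := hτ (x s.length) hT1 x h2
      (fun n hn => hT n (by simp at hn; omega)) (by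
      intro n hn hp' hT'
      have hn' : s.length + 1 ≤ n := by simpa using hn
      have hex : ∃ a, a :: s <:+ pos x n ∧ a :: s ∈ T :=
        ⟨x s.length, by rw [h0]; exact pos_suffix x hn', hT1⟩
      have hch : Classical.choose hex = x s.length := by
        have h3 := (suffix_pos (Classical.choose_spec hex).1).1
        rw [List.length_cons, ← h0, List.cons.injEq] at h3
        exact h3.1
      have := hf n (by omega) hp' (by simp only [dif_pos hex, hch]; exact hT')
      simpa only [dif_pos hex, hch] using this)
    exact ⟨n, by simp at hn; omega, hE⟩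

/-- relatively clopen payoff -/
def Clp (T : Set (List A)) (W : Set (ℕ → A)) : Prop :=
  ∀ x, Br T x → ∃ n, ∀ y, Br T y → pos y n = pos x n → (y ∈ W ↔ x ∈ W)

theorem Clp.compl {T : Set (List A)} {W : Set (ℕ → A)} (h : Clp T W) : Clp T Wᶜ := by
  intro x hx
  obtain ⟨n, hn⟩ := h x hx
  exact ⟨n, fun y hy hyx => not_congr (hn y hy hyx)⟩

theorem det_of_clp {T : Set (List A)} (hT : IsTree T) {W : Set (ℕ → A)} (h : Clp T W) :
    Det T W := by
  classical
  obtain ⟨a0, _⟩ := hT.ext [] hT.nil
  have _ : Nonempty A := ⟨a0⟩
  set E : Set (List A) := {s | ∀ y, Br T y → pos y s.length = s → y ∈ W} with hE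
  by_cases h0 : Win T E false []
  · left
    obtain ⟨τ, hτ⟩ := h0.strat
    choose! ex hex using hT.ext
    refine ⟨fun s => if τ s :: s ∈ T then τ s else ex s, ?_, ?_⟩
    · intro s hs _
      by_cases h1 : τ s :: s ∈ T
      · simp only [if_pos h1]; exact h1
      · simp only [if_neg h1]; exact hex s hs
    · intro x hx hf
      obtain ⟨n, _, hn⟩ := hτ x rfl (fun n _ => hx n) (by
        intro n _ hp h1
        have := hf n hp
        simpa only [if_pos h1] using this)
      exact hn x hx (by simp)
  · right
    have hstep : ∀ s ∈ T, s.length.bodd = true → ¬ Win T E false s →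
        ∃ a, a :: s ∈ T ∧ ¬ Win T E false (a :: s) := by
      intro s hs hp hw
      by_contra hcon
      push Not at hcon
      exact hw (Win.opp s (by rw [hp]; simp) hcon)
    choose! ex hex using hT.ext
    refine ⟨fun s => if h : ∃ a, a :: s ∈ T ∧ ¬ Win T E false (a :: s) then Classical.choose h
      else ex s, ?_, ?_⟩
    · intro s hs _
      by_cases h1 : ∃ a, a :: s ∈ T ∧ ¬ Win T E false (a :: s)
      · simp only [dif_pos h1]; exact (Classical.choose_spec h1).1
      · simp only [dif_neg h1]; exact hex s hs
    · intro x hx hf hxW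
      have key : ∀ n, ¬ Win T E false (pos x n) := by
        intro n
        induction n with
        | zero => exact h0
        | succ n ih =>
          cases hb : n.bodd with
          | false =>
            intro hw
            exact ih (Win.mine _ (x n) (by simpa using hb) (by rw [← pos_succ]; exact hx _)
              (by rw [← pos_succ]; exact hw))
          | true =>
            have h1 := hstep (pos x n) (hx n) (by simpa using hb) ih
            have := hf n hb
            simp only [dif_pos h1] at this
            rw [pos_succ, this]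
            exact (Classical.choose_spec h1).2
      obtain ⟨n, hn⟩ := h x hx
      apply key n
      apply Win.here
      intro y hy hyx
      rw [length_pos] at hyx
      exact (hn y hy hyx).2 hxW

end V11256.BD
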