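import Mathlib
import Pool.Agent.V11256.BD.A

/-!
# Borel determinacy, part B: coverings, composition
-/

namespace V11256.BD

/-- bundled game trees -/
structure GT where
  A : Type
  T : Set (List A)
  tree : IsTree T

/-- `G'` is a `k`-covering of `G` -/
structure Cov (k : ℕ) (G G' : GT) where
  f : G'.A → G.A
  e : G.A → G'.A
  fe : ∀ a, f (e a) = a
  mapf : ∀ s ∈ G'.T, s.map f ∈ G.T
  mape : ∀ s ∈ G.T, s.length ≤ 2 * k → s.map e ∈ G'.T
  uniq : ∀ s ∈ G'.T, s.length ≤ 2 * k → (s.map f).map e = s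
  φ : Bool → (List G'.A → G'.A) → (List G.A → G.A)
  leg : ∀ p σ, Leg G'.T p σ → Leg G.T p (φ p σ)
  loc : ∀ p σ τ n, Leg G'.T p σ → Leg G'.T p τ →
    (∀ s ∈ G'.T, s.length.bodd = p → s.length ≤ n → σ s = τ s) →
    ∀ s ∈ G.T, s.length.bodd = p → s.length ≤ n → φ p σ s = φ p τ s
  low : ∀ p σ, Leg G'.T p σ → ∀ s ∈ G.T, s.length.bodd = p → s.length < 2 * k →
    φ p σ s = f (σ (s.map e))
  lift : ∀ p σ, Leg G'.T p σ → ∀ x, Br G.T x → Fol p (φ p σ) x →
    ∃ x', Br G'.T x' ∧ Fol p σ x' ∧ ∀ n, f (x' n) = x n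

def Cov.weaken {k k' : ℕ} (h : k ≤ k') {G G' : GT} (C : Cov k' G G') : Cov k G G' where
  f := C.f
  e := C.e
  fe := C.fe
  mapf := C.mapf
  mape := fun s hs hl => C.mape s hs (by omega)
  uniq := fun s hs hl => C.uniq s hs (by omega)
  φ := C.φ
  leg := C.leg
  loc := C.loc
  low := fun p σ hσ s hs hp hl => C.low p σ hσ s hs hp (by omega)
  lift := C.lift

def Cov.refl (k : ℕ) (G : GT) : Cov k G G where
  f := id
  e := id
  fe := fun _ => rfl
  mapf := fun s hs => by simpa using hs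
  mape := fun s hs _ => by simpa using hs
  uniq := fun s _ _ => by simp
  φ := fun _ σ => σ
  leg := fun _ _ h => h
  loc := fun p σ τ n _ _ h s hs hp hl => h s hs hp hl
  low := fun p σ _ s _ _ _ => by simp
  lift := fun p σ _ x hx hf => ⟨x, hx, hf, fun _ => rfl⟩

def Cov.comp {k : ℕ} {G G' G'' : GT} (C : Cov k G G') (C' : Cov k G' G'') : Cov k G G'' where
  f := C.f ∘ C'.f
  e := C'.e ∘ C.e
  fe := fun a => by simp [C'.fe, C.fe]
  mapf := fun s hs => by rw [← List.map_map]; exact C.mapf _ (C'.mapf _ hs)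
  mape := fun s hs hl => by
    rw [← List.map_map]; exact C'.mape _ (C.mape _ hs hl) (by simpa using hl)
  uniq := fun s hs hl => by
    rw [← List.map_map, ← List.map_map, C.uniq _ (C'.mapf _ hs) (by simpa using hl),
      C'.uniq _ hs hl]
  φ := fun p σ => C.φ p (C'.φ p σ)
  leg := fun p σ h => C.leg p _ (C'.leg p σ h)
  loc := fun p σ τ n hσ hτ h s hs hp hl =>
    C.loc p _ _ n (C'.leg p σ hσ) (C'.leg p τ hτ)
      (fun t ht htp htl => C'.loc p σ τ n hσ hτ h t ht htp htl) s hs hp hl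
  low := fun p σ hσ s hs hp hl => by
    rw [C.low p _ (C'.leg p σ hσ) s hs hp hl, C'.low p σ hσ _ (C.mape s hs hl.le)
      (by simpa using hp) (by simpa using hl), List.map_map]
    rfl
  lift := fun p σ hσ x hx hf => by
    obtain ⟨x', hx', hf', h'⟩ := C.lift p _ (C'.leg p σ hσ) x hx hf
    obtain ⟨x'', hx'', hf'', h''⟩ := C'.lift p σ hσ x' hx' hf'
    exact ⟨x'', hx'', hf'', fun n => by rw [Function.comp_apply, h'', h']⟩

/-- determinacy is inherited from a covering unravelling the payoff -/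
theorem Cov.det {k : ℕ} {G G' : GT} (C : Cov k G G') {W : Set (ℕ → G.A)}
    (h : Det G'.T {x | (fun n => C.f (x n)) ∈ W}) : Det G.T W := by
  have key : ∀ p (V : Set (ℕ → G.A)), (∃ σ, Wins G'.T p {x | (fun n => C.f (x n)) ∈ V} σ) →
      ∃ σ, Wins G.T p V σ := by
    rintro p V ⟨σ, hσ, hw⟩
    refine ⟨C.φ p σ, C.leg p σ hσ, fun x hx hf => ?_⟩
    obtain ⟨x', hx', hf', h'⟩ := C.lift p σ hσ x hx hf
    have := hw x' hx' hf'
    have h2 : (fun n => C.f (x' n)) = x := funext h'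
    simpa [h2] using this
  rcases h with h | h
  · exact Or.inl (key false W h)
  · exact Or.inr (key true Wᶜ h)

theorem Clp.comap {G G' : GT} (h : G'.A → G.A) (hm : ∀ s ∈ G'.T, s.map h ∈ G.T)
    {W : Set (ℕ → G.A)} (hW : Clp G.T W) : Clp G'.T {x | (fun n => h (x n)) ∈ W} := by
  intro x hx
  have hx' : Br G.T (fun n => h (x n)) := fun n => by rw [← pos_map]; exact hm _ (hx n)
  obtain ⟨n, hn⟩ := hW _ hx'
  refine ⟨n, fun y hy hyx => ?_⟩
  have hy' : Br G.T (fun n => h (y n)) := fun n => by rw [← pos_map]; exact hm _ (hy n)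
  exact hn _ hy' (by rw [← pos_map h y, ← pos_map h x, hyx])

end V11256.BD
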