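import Mathlib
import Pool.Agent.V11256.BD.B

/-!
# Borel determinacy, part C: unravelling a closed set (Martin)
-/

namespace V11256.BD

open Classical

section Core

variable {A : Type}

/-- `S` is a quasi-strategy of player `p` in `T` from the position `q` -/
structure QS (T : Set (List A)) (p : Bool) (S : Set (List A)) (q : List A) : Prop where
  mem : q ∈ S
  sub : ∀ s ∈ S, s ∈ T ∧ q <:+ s
  tail : ∀ a s, a :: s ∈ S → q <:+ s → s ∈ S
  opp : ∀ s ∈ S, s.length.bodd ≠ p → ∀ a, a :: s ∈ T → a :: s ∈ S
  own : ∀ s ∈ S, s.length.bodd = p → ∃ a, a :: s ∈ S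

theorem QS.suffix {T S : Set (List A)} {p : Bool} {q : List A} (h : QS T p S q) {r s : List A}
    (hs : s ∈ S) (hr : q <:+ r) (hrs : r <:+ s) : r ∈ S := by
  induction s with
  | nil => rw [List.suffix_nil.1 hrs]; exact hs
  | cons a t ih =>
    rcases List.suffix_cons_iff.1 hrs with h1 | h1
    · rw [h1]; exact hs
    · exact ih (h.tail a t hs (hr.trans h1)) h1

/-- positions above `q` at which `p` cannot yet force reaching `E` -/
def NL (T E : Set (List A)) (p : Bool) (q : List A) : Set (List A) :=
  {t | t ∈ T ∧ q <:+ t ∧ ∀ r, q <:+ r → r <:+ t → ¬ Win T E p r}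

theorem NL_QS {T E : Set (List A)} {p : Bool} {q : List A} (hq : q ∈ T) (hw : ¬ Win T E p q)
    (hT : ∀ a s, a :: s ∈ T → q <:+ s → s ∈ T) : QS T (!p) (NL T E p q) q := by
  have hcons : ∀ a t, t ∈ NL T E p q → a :: t ∈ T → ¬ Win T E p (a :: t) →
      a :: t ∈ NL T E p q := by
    rintro a t ⟨_, h2, h3⟩ ha hwa
    refine ⟨ha, h2.trans (List.suffix_cons _ _), fun r hr hrt => ?_⟩
    rcases List.suffix_cons_iff.1 hrt with h | h
    · rw [h]; exact hwa
    · exact h3 r hr h
  refine ⟨⟨hq, List.suffix_rfl, fun r h1 h2 => ?_⟩, fun s hs => ⟨hs.1, hs.2.1⟩, ?_, ?_, ?_⟩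
  · rwa [h2.eq_of_length_le h1.length_le]
  · rintro a s ⟨h1, _, h3⟩ hqs
    exact ⟨hT a s h1 hqs, hqs, fun r hr hrs => h3 r hr (hrs.trans (List.suffix_cons _ _))⟩
  · intro s hs hp a ha
    have hp' : s.length.bodd = p := by
      cases p <;> cases h : s.length.bodd <;> simp_all
    exact hcons a s hs ha (fun hwa => hs.2.2 s hs.2.1 List.suffix_rfl (Win.mine s a hp' ha hwa))
  · intro s hs hp
    have hp' : s.length.bodd ≠ p := by
      cases p <;> cases h : s.length.bodd <;> simp_all
    by_contra hcon
    push Not at hcon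
    exact hs.2.2 s hs.2.1 List.suffix_rfl (Win.opp s hp' (fun a ha => by
      by_contra hwa
      exact hcon a (hcons a s hs ha hwa)))

theorem NL_sub_compl {T E : Set (List A)} {p : Bool} {q : List A} : NL T E p q ⊆ Eᶜ :=
  fun s hs hE => hs.2.2 s hs.2.1 List.suffix_rfl (Win.here s hE)

/-! ### suffixes of given length, first hitting positions -/

def pre (m : ℕ) (s : List A) : List A := s.drop (s.length - m)

theorem pre_suffix (m : ℕ) (s : List A) : pre m s <:+ s := List.drop_suffix _ _

theorem length_pre {m : ℕ} {s : List A} (h : m ≤ s.length) : (pre m s).length = m := by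
  unfold pre; rw [List.length_drop]; omega

theorem pre_pos (x : ℕ → A) {m n : ℕ} (h : m ≤ n) : pre m (pos x n) = pos x m := by
  have h1 := (suffix_pos (pre_suffix m (pos x n))).1
  rw [length_pre (by simpa using h)] at h1
  exact h1

noncomputable def fh (P : Set (List A)) (m0 : ℕ) (s : List A) : Option (List A) :=
  if h : ∃ m, m0 ≤ m ∧ m ≤ s.length ∧ pre m s ∈ P then some (pre (Nat.find h) s) else none

theorem fh_some {P : Set (List A)} {m0 m n : ℕ} {x : ℕ → A} (h0 : m0 ≤ m) (hn : m ≤ n)
    (hP : pos x m ∈ P) (hlt : ∀ j, m0 ≤ j → j < m → pos x j ∉ P) :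
    fh P m0 (pos x n) = some (pos x m) := by
  have h : ∃ j, m0 ≤ j ∧ j ≤ (pos x n).length ∧ pre j (pos x n) ∈ P :=
    ⟨m, h0, by simpa using hn, by rw [pre_pos x hn]; exact hP⟩
  unfold fh
  rw [dif_pos h]
  have hf : Nat.find h = m := by
    rw [Nat.find_eq_iff]
    refine ⟨⟨h0, by simpa using hn, by rw [pre_pos x hn]; exact hP⟩, ?_⟩
    rintro j hj ⟨h1, _, h3⟩
    rw [pre_pos x (by omega)] at h3
    exact hlt j h1 hj h3
  rw [hf, pre_pos x hn]

theorem fh_none {P : Set (List A)} {m0 n : ℕ} {x : ℕ → A}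
    (hlt : ∀ j, m0 ≤ j → j ≤ n → pos x j ∉ P) : fh P m0 (pos x n) = none := by
  unfold fh
  rw [dif_neg]
  rintro ⟨j, h1, h2, h3⟩
  rw [length_pos] at h2
  rw [pre_pos x h2] at h3
  exact hlt j h1 h2 h3

/-! ### the covering game -/

abbrev AA (A : Type) : Type := A × Set (List A) × Option (List A)

def em (a : A) : AA A := (a, ∅, none)

variable (k : ℕ) (T C : Set (List A))

def acc : List (AA A) → Set (List A)
  | [] => T
  | a :: t => if t.length = 2 * k + 1 then
      (match a.2.2 with
        | some w => {q | q ∈ T ∧ (q <:+ w ∨ w <:+ q)}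
        | none => a.2.1)
      else acc t

def hd : List (AA A) → Set (List A)
  | [] => ∅
  | a :: _ => a.2.1

def Opt (S0 : Set (List A)) (d : Set (List A) × Option (List A)) (q : List A) : Prop :=
  (∃ w, d = (∅, some w) ∧ w ∈ S0 ∧ q <:+ w ∧ w ∉ C) ∨
  (∃ S', d = (S', none) ∧ QS S0 true S' q ∧ S' ⊆ C)

structure Rule (t : List (AA A)) (a : AA A) : Prop where
  acc : a.1 :: t.map Prod.fst ∈ acc k T t
  triv : t.length ≠ 2 * k → t.length ≠ 2 * k + 1 → a.2 = (∅, none)
  one : t.length = 2 * k → a.2.2 = none ∧ QS T false a.2.1 (a.1 :: t.map Prod.fst)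
  two : t.length = 2 * k + 1 → Opt C (hd t) a.2 (a.1 :: t.map Prod.fst)

def Vd : List (AA A) → Prop
  | [] => True
  | a :: t => Vd t ∧ Rule k T C t a

def TT : Set (List (AA A)) := {s | Vd k T C s}

variable {k T C}

theorem acc_low {s : List (AA A)} (h : s.length ≤ 2 * k + 1) : acc k T s = T := by
  induction s with
  | nil => rfl
  | cons a t ih =>
    rw [List.length_cons] at h
    unfold acc
    rw [if_neg (by omega), ih (by omega)]

theorem acc_high {a : AA A} {t : List (AA A)} (h : t.length ≠ 2 * k + 1) :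
    acc k T (a :: t) = acc k T t := by
  conv_lhs => unfold acc
  rw [if_neg h]

theorem map_low (hT : IsTree T) {s : List (AA A)} (hs : Vd k T C s) (h : s.length ≤ 2 * k + 2) :
    s.map Prod.fst ∈ T := by
  cases s with
  | nil => exact hT.nil
  | cons a t =>
    rw [List.length_cons] at h
    have h1 := hs.2.acc
    rw [acc_low (by omega)] at h1
    exact h1

theorem QS_at {s : List (AA A)} (hs : Vd k T C s) (h : s.length = 2 * k + 1) :
    QS T false (hd s) (s.map Prod.fst) := by
  cases s with
  | nil => simp at h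
  | cons a t =>
    rw [List.length_cons] at h
    exact (hs.2.one (by omega)).2

theorem acc_cases (hT : IsTree T) {s : List (AA A)} (hs : Vd k T C s)
    (hl : 2 * k + 2 ≤ s.length) :
    ∃ p0 a S0, p0.length = 2 * k + 1 ∧ QS T false S0 p0 ∧ a :: p0 <:+ s.map Prod.fst ∧
      a :: p0 ∈ S0 ∧
      ((∃ w ∈ S0, a :: p0 <:+ w ∧ w ∉ C ∧ acc k T s = {t | t ∈ T ∧ (t <:+ w ∨ w <:+ t)}) ∨
        (QS S0 true (acc k T s) (a :: p0) ∧ acc k T s ⊆ C)) := by
  induction s with
  | nil => simp at hl
  | cons b t ih =>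
    rw [List.length_cons] at hl
    by_cases h : t.length = 2 * k + 1
    · have hqs := QS_at hs.1 h
      have h2 := hs.2.two h
      have hmem : b.1 :: t.map Prod.fst ∈ T := by
        have h1 := hs.2.acc
        rwa [acc_low (by omega)] at h1
      have hmS : b.1 :: t.map Prod.fst ∈ hd t := by
        refine hqs.opp _ hqs.mem ?_ _ hmem
        rw [List.length_map, h]; simp
      refine ⟨t.map Prod.fst, b.1, hd t, by simpa using h, hqs, List.suffix_rfl, hmS, ?_⟩
      rcases h2 with ⟨w, hd', hw, hqw, hwC⟩ | ⟨S', hd', hS', hSC⟩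
      · left
        refine ⟨w, hw, hqw, hwC, ?_⟩
        unfold acc
        rw [if_pos h, hd']
      · right
        have : acc k T (b :: t) = S' := by
          unfold acc
          rw [if_pos h, hd']
        rw [this]
        exact ⟨hS', hSC⟩
    · obtain ⟨p0, a, S0, h1, h2, h3, h4, h5⟩ := ih hs.1 (by omega)
      refine ⟨p0, a, S0, h1, h2, h3.trans (List.suffix_cons _ _), h4, ?_⟩
      rw [acc_high h]
      exact h5

theorem acc_sub (hT : IsTree T) {s : List (AA A)} (hs : Vd k T C s) : acc k T s ⊆ T := by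
  rcases Nat.lt_or_ge s.length (2 * k + 2) with h | h
  · rw [acc_low (by omega)]
  · obtain ⟨p0, a, S0, _, h2, _, _, h5⟩ := acc_cases hT hs h
    rcases h5 with ⟨w, _, _, _, h6⟩ | ⟨h6, _⟩
    · rw [h6]; exact fun t ht => ht.1
    · intro t ht
      exact (h2.sub t (h6.sub t ht).1).1

theorem map_mem (hT : IsTree T) {s : List (AA A)} (hs : Vd k T C s) : s.map Prod.fst ∈ T := by
  cases s with
  | nil => exact hT.nil
  | cons a t => exact acc_sub hT hs.1 hs.2.acc

theorem map_acc (hT : IsTree T) {s : List (AA A)} (hs : Vd k T C s) :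
    s.map Prod.fst ∈ acc k T s := by
  cases s with
  | nil => exact hT.nil
  | cons a t =>
    by_cases h : t.length = 2 * k + 1
    · have hm := map_mem hT hs
      have h2 := hs.2.two h
      unfold acc
      rw [if_pos h]
      rcases h2 with ⟨w, hd', hw, hqw, hwC⟩ | ⟨S', hd', hS', hSC⟩
      · rw [hd']
        exact ⟨hm, Or.inl hqw⟩
      · rw [hd']
        exact hS'.mem
    · rw [acc_high h]
      exact hs.2.acc

theorem acc_ext (hT : IsTree T) {s : List (AA A)} (hs : Vd k T C s)
    (hl : 2 * k + 2 ≤ s.length) {t : List A} (ht : t ∈ acc k T s) :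
    ∃ a, a :: t ∈ acc k T s := by
  obtain ⟨p0, a, S0, h1, h2, h3, h4, h5⟩ := acc_cases hT hs hl
  rcases h5 with ⟨w, hw, _, _, h6⟩ | ⟨h6, _⟩
  · rw [h6] at ht ⊢
    obtain ⟨htT, ht⟩ := ht
    by_cases hwt : w <:+ t
    · obtain ⟨b, hb⟩ := hT.ext t htT
      exact ⟨b, hb, Or.inr (hwt.trans (List.suffix_cons _ _))⟩
    · have htw : t <:+ w := ht.resolve_right hwt
      obtain ⟨u, hu⟩ := htw
      rcases List.eq_nil_or_concat u with rfl | ⟨u', b, rfl⟩
      · exact absurd (by rw [← hu]; exact List.suffix_rfl) hwt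
      · have hbw : b :: t <:+ w := ⟨u', by rw [← hu]; simp⟩
        exact ⟨b, hT.suffix hbw (h2.sub w hw).1, Or.inl hbw⟩
  · have htS := (h6.sub t ht).1
    cases hb : t.length.bodd with
    | false =>
      obtain ⟨b, hb'⟩ := h2.own t htS hb
      exact ⟨b, h6.opp t ht (by rw [hb]; simp) b hb'⟩
    | true => exact h6.own t ht hb

theorem TT_tree (hT : IsTree T) : IsTree (TT k T C) := by
  refine ⟨trivial, fun a s h => h.1, ?_⟩
  intro s hs
  have hs' : Vd k T C s := hs
  have hm := map_mem hT hs'
  rcases lt_trichotomy s.length (2 * k) with h | h | h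
  · obtain ⟨a, ha⟩ := hT.ext _ hm
    exact ⟨(a, ∅, none), hs, ⟨by rw [acc_low (by omega)]; exact ha, fun _ _ => rfl,
      fun h' => by omega, fun h' => by omega⟩⟩
  · obtain ⟨a, ha⟩ := hT.ext _ hm
    refine ⟨(a, {t | t ∈ T ∧ a :: s.map Prod.fst <:+ t}, none), hs,
      ⟨by rw [acc_low (by omega)]; exact ha, fun h' => by omega, fun _ => ⟨rfl, ?_⟩,
      fun h' => by omega⟩⟩
    refine ⟨⟨ha, List.suffix_rfl⟩, fun t ht => ht, fun b t ht hq => ⟨hT.tail _ _ ht.1, hq⟩,
      fun t ht _ b hb => ⟨hb, ht.2.trans (List.suffix_cons _ _)⟩, fun t ht _ => ?_⟩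
    obtain ⟨b, hb⟩ := hT.ext t ht.1
    exact ⟨b, hb, ht.2.trans (List.suffix_cons _ _)⟩
  · rcases Nat.lt_or_ge s.length (2 * k + 2) with h' | h'
    · have hl : s.length = 2 * k + 1 := by omega
      have hqs := QS_at hs' hl
      obtain ⟨a, ha⟩ := hT.ext _ hm
      have hmS : a :: s.map Prod.fst ∈ hd s := by
        refine hqs.opp _ hqs.mem ?_ _ ha
        rw [List.length_map, hl]; simp
      by_cases hex : ∃ w ∈ hd s, a :: s.map Prod.fst <:+ w ∧ w ∉ C
      · obtain ⟨w, h1, h2, h3⟩ := hex
        exact ⟨(a, ∅, some w), hs, ⟨by rw [acc_low (by omega)]; exact ha,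
          fun _ h' => absurd hl h', fun h' => by omega, fun _ => Or.inl ⟨w, rfl, h1, h2, h3⟩⟩⟩
      · push Not at hex
        refine ⟨(a, {t | t ∈ hd s ∧ a :: s.map Prod.fst <:+ t}, none), hs,
          ⟨by rw [acc_low (by omega)]; exact ha, fun _ h' => absurd hl h', fun h' => by omega,
          fun _ => Or.inr ⟨_, rfl, ?_, fun t ht => hex t ht.1 ht.2⟩⟩⟩
        refine ⟨⟨hmS, List.suffix_rfl⟩, fun t ht => ht, fun b t ht hq =>
          ⟨hqs.tail _ _ ht.1 ((List.suffix_cons _ _).trans hq), hq⟩,
          fun t ht _ b hb => ⟨hb, ht.2.trans (List.suffix_cons _ _)⟩, fun t ht hp => ?_⟩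
        obtain ⟨b, hb⟩ := hT.ext t (hqs.sub t ht.1).1
        exact ⟨b, hqs.opp t ht.1 (by rw [hp]; simp) b hb, ht.2.trans (List.suffix_cons _ _)⟩
    · obtain ⟨a, ha⟩ := acc_ext hT hs' h' (map_acc hT hs')
      exact ⟨(a, ∅, none), hs, ⟨ha, fun _ _ => rfl, fun h' => by omega, fun h' => by omega⟩⟩

/-! ### inserting the extra information -/

def ent (k : ℕ) (S S' : Set (List A)) (u : Option (List A)) (n : ℕ) (a : A) : AA A :=
  if n = 2 * k then (a, S, none) else if n = 2 * k + 1 then (a, S', u) else (a, ∅, none)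

def insL (k : ℕ) (S S' : Set (List A)) (u : Option (List A)) : List A → List (AA A)
  | [] => []
  | a :: t => ent k S S' u t.length a :: insL k S S' u t

variable {S S' : Set (List A)} {u : Option (List A)}

theorem ent_fst (n : ℕ) (a : A) : (ent k S S' u n a).1 = a := by
  unfold ent; split_ifs <;> rfl

@[simp] theorem length_insL (s : List A) : (insL k S S' u s).length = s.length := by
  induction s with
  | nil => rfl
  | cons a t ih => simp [insL, ih]

@[simp] theorem map_insL (s : List A) : (insL k S S' u s).map Prod.fst = s := by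
  induction s with
  | nil => rfl
  | cons a t ih => simp [insL, ih, ent_fst]

theorem insL_low {s : List A} (h : s.length ≤ 2 * k) : insL k S S' u s = s.map em := by
  induction s with
  | nil => rfl
  | cons a t ih =>
    rw [List.length_cons] at h
    rw [insL, ih (by omega), List.map_cons]
    congr 1
    unfold ent
    rw [if_neg (by omega), if_neg (by omega)]
    rfl

theorem insL_one {s : List A} (h : s.length ≤ 2 * k + 1) (S2 : Set (List A))
    (u2 : Option (List A)) : insL k S S' u s = insL k S S2 u2 s := by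
  cases s with
  | nil => rfl
  | cons a t =>
    rw [List.length_cons] at h
    rw [insL, insL, insL_low (by omega), insL_low (by omega)]
    congr 1
    unfold ent
    by_cases h1 : t.length = 2 * k
    · rw [if_pos h1, if_pos h1]
    · rw [if_neg h1, if_neg h1, if_neg (by omega), if_neg (by omega)]

theorem pos_ins (x : ℕ → A) (n : ℕ) :
    pos (fun m => ent k S S' u m (x m)) n = insL k S S' u (pos x n) := by
  induction n with
  | zero => rfl
  | succ n ih => rw [pos_succ, pos_succ, insL, ih, length_pos]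

theorem map_em_mem (hT : IsTree T) {s : List A} (hs : s ∈ T) (hl : s.length ≤ 2 * k) :
    s.map em ∈ TT k T C := by
  induction s with
  | nil => exact trivial
  | cons a t ih =>
    rw [List.length_cons] at hl
    have hf : (t.map em).map Prod.fst = t := by
      rw [List.map_map]
      conv_rhs => rw [← List.map_id t]
      rfl
    refine ⟨ih (hT.tail _ _ hs) (by omega), ⟨?_, fun _ _ => rfl, fun h => ?_, fun h => ?_⟩⟩
    · rw [acc_low (by rw [List.length_map]; omega), hf]; exact hs
    · rw [List.length_map] at h; omega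
    · rw [List.length_map] at h; omega

theorem insL_mem0 (hT : IsTree T) {p0 : List A} (hp0 : p0.length = 2 * k + 1)
    (hS : QS T false S p0) : Vd k T C (insL k S S' u p0) := by
  cases p0 with
  | nil => simp at hp0
  | cons a t =>
    rw [List.length_cons] at hp0
    have hl : t.length = 2 * k := by omega
    have hT0 := (hS.sub _ hS.mem).1
    rw [insL, insL_low hl.le]
    have hf : (t.map em).map Prod.fst = t := by
      rw [List.map_map]
      conv_rhs => rw [← List.map_id t]
      rfl
    have hent : ent k S S' u t.length a = (a, S, none) := by unfold ent; rw [if_pos hl]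
    rw [hent]
    refine ⟨map_em_mem hT (hT.tail _ _ hT0) hl.le, ⟨?_, fun h => ?_, fun _ => ⟨rfl, ?_⟩,
      fun h => ?_⟩⟩
    · rw [acc_low (by rw [List.length_map]; omega), hf]; exact hT0
    · rw [List.length_map] at h; omega
    · rw [hf]; exact hS
    · rw [List.length_map] at h; omega

theorem hd_insL {p0 : List A} (hp0 : p0.length = 2 * k + 1) : hd (insL k S S' u p0) = S := by
  cases p0 with
  | nil => simp at hp0
  | cons a t =>
    rw [List.length_cons] at hp0
    rw [insL]
    unfold hd ent
    rw [if_pos (by omega)]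

theorem acc_insL {p0 : List A} (hp0 : p0.length = 2 * k + 1) {a : A} {s : List A}
    (h : a :: p0 <:+ s) : acc k T (insL k S S' u s) =
      (match u with
        | some w => {q | q ∈ T ∧ (q <:+ w ∨ w <:+ q)}
        | none => S') := by
  induction s with
  | nil => simp at h
  | cons b t ih =>
    rcases List.suffix_cons_iff.1 h with h1 | h1
    · rw [List.cons.injEq] at h1
      obtain ⟨rfl, rfl⟩ := h1
      rw [insL]
      have hent : ent k S S' u p0.length a = (a, S', u) := by
        unfold ent; rw [if_neg (by omega), if_pos hp0]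
      rw [hent]
      conv_lhs => unfold acc
      rw [if_pos (by rw [length_insL]; exact hp0)]
    · rw [insL, acc_high, ih h1]
      have := h1.length_le
      rw [List.length_cons] at this
      rw [length_insL]; omega

theorem insL_mem (hT : IsTree T) {p0 : List A} (hp0 : p0.length = 2 * k + 1) {a : A}
    (hS : QS T false S p0) (ho : Opt C S (S', u) (a :: p0)) {s : List A} (hq : a :: p0 <:+ s)
    (hR : ∀ r, a :: p0 <:+ r → r <:+ s → r ∈ T ∧ r ∈ (match u with
        | some w => {q | q ∈ T ∧ (q <:+ w ∨ w <:+ q)}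
        | none => S')) : Vd k T C (insL k S S' u s) := by
  induction s with
  | nil => simp at hq
  | cons b t ih =>
    rcases List.suffix_cons_iff.1 hq with h1 | h1
    · rw [List.cons.injEq] at h1
      obtain ⟨rfl, rfl⟩ := h1
      rw [insL]
      have hent : ent k S S' u p0.length a = (a, S', u) := by
        unfold ent; rw [if_neg (by omega), if_pos hp0]
      rw [hent]
      refine ⟨insL_mem0 hT hp0 hS, ⟨?_, fun _ h => ?_, fun h => ?_, fun _ => ?_⟩⟩
      · rw [acc_low (by rw [length_insL]; omega), map_insL]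
        exact (hR _ List.suffix_rfl List.suffix_rfl).1
      · rw [length_insL] at h; exact absurd hp0 h
      · rw [length_insL] at h; omega
      · rw [hd_insL hp0, map_insL]; exact ho
    · have hlen := h1.length_le
      rw [List.length_cons] at hlen
      rw [insL]
      have hent : ent k S S' u t.length b = (b, ∅, none) := by
        unfold ent; rw [if_neg (by omega), if_neg (by omega)]
      rw [hent]
      refine ⟨ih h1 (fun r hr hrt => hR r hr (hrt.trans (List.suffix_cons _ _))),
        ⟨?_, fun _ _ => rfl, fun h => ?_, fun h => ?_⟩⟩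
      · rw [acc_insL hp0 h1, map_insL]
        exact (hR _ hq List.suffix_rfl).2
      · rw [length_insL] at h; omega
      · rw [length_insL] at h; omega

end Core

end V11256.BD
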