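import Mathlib
import Pool.Agent.V11256.BD.C

/-!
# Borel determinacy, part D: transfer of strategies in the unravelling game
-/

namespace V11256.BD

open Classical

section Strat

variable {A : Type}

/-- a default move staying in `S` if possible, else in `T` -/
noncomputable def dfl [Nonempty A] (S T : Set (List A)) (s : List A) : A :=
  if h : ∃ a, a :: s ∈ S then h.choose
  else if h : ∃ a, a :: s ∈ T then h.choose else Classical.arbitrary A

theorem dfl_mem_left [Nonempty A] {S T : Set (List A)} {s : List A} (h : ∃ a, a :: s ∈ S) :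
    dfl S T s :: s ∈ S := by
  unfold dfl; rw [dif_pos h]; exact h.choose_spec

theorem dfl_mem [Nonempty A] {S T : Set (List A)} {s : List A} (hST : S ⊆ T)
    (h : ∃ a, a :: s ∈ T) : dfl S T s :: s ∈ T := by
  by_cases h1 : ∃ a, a :: s ∈ S
  · exact hST (dfl_mem_left h1)
  · unfold dfl; rw [dif_neg h1, dif_pos h]; exact h.choose_spec

/-- the strategy attached to a won position -/
noncomputable def tau [Nonempty A] (T E : Set (List A)) (p : Bool) (q : List A) :
    List A → A :=
  if h : Win T E p q then (Win.strat h).choose else fun _ => Classical.arbitrary A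

theorem tau_spec [Nonempty A] {T E : Set (List A)} {p : Bool} {q : List A} (h : Win T E p q) :
    ∀ x : ℕ → A, pos x q.length = q →
      (∀ n, q.length ≤ n → pos x n ∈ T) →
      (∀ n, q.length ≤ n → n.bodd = p → tau T E p q (pos x n) :: pos x n ∈ T →
        x n = tau T E p q (pos x n)) →
      ∃ n, q.length ≤ n ∧ pos x n ∈ E := by
  unfold tau
  rw [dif_pos h]
  exact (Win.strat h).choose_spec

variable [Nonempty A] (k : ℕ) (T C : Set (List A))

noncomputable def use (σ : List (AA A) → AA A) (S S' : Set (List A)) (u : Option (List A))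
    (s : List A) : A :=
  if Vd k T C (insL k S S' u s) then (σ (insL k S S' u s)).1 else dfl S T s

noncomputable def follow (S E : Set (List A)) (p : Bool) (t s : List A) : A :=
  if tau S E p t s :: s ∈ S then tau S E p t s else dfl S T s

noncomputable def bodyI (σ : List (AA A) → AA A) (S : Set (List A)) (s : List A) : A :=
  match fh Cᶜ (2 * k + 2) s with
  | some w => use k T C σ S ∅ (some w) s
  | none =>
    match fh {t | Win S Cᶜ false t} (2 * k + 2) s with
    | some t => follow T S Cᶜ false t s
    | none => use k T C σ S (NL S Cᶜ false (pre (2 * k + 2) s)) none s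

noncomputable def phiI (σ : List (AA A) → AA A) (s : List A) : A :=
  if s.length ≤ 2 * k then (σ (s.map em)).1
  else bodyI k T C σ (σ ((pre (2 * k) s).map em)).2.1 s

/-- replies of player `true` at time `2k+1` to the declared quasi-strategies -/
noncomputable def gg (σ : List (AA A) → AA A) (p0 : List A) (S : Set (List A)) : AA A :=
  if QS T false S p0 then σ (insL k S ∅ none p0) else em (Classical.arbitrary A)

def UU (g : Set (List A) → AA A) (p0 : List A) : Set (List A) :=
  {w | ∃ S, QS T false S p0 ∧ ∃ b, g S = (b, ∅, some w)}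

noncomputable def wit (g : Set (List A) → AA A) (p0 w : List A) : Set (List A) :=
  if h : ∃ S, QS T false S p0 ∧ ∃ b, g S = (b, ∅, some w) then h.choose else ∅

noncomputable def bodyII (σ : List (AA A) → AA A) (g : Set (List A) → AA A) (p0 s : List A) :
    A :=
  match fh (UU T g p0) (2 * k + 2) s with
  | some w => use k T C σ (wit T g p0 w) ∅ (some w) s
  | none =>
    match fh {t | Win T (UU T g p0) true t} (2 * k + 1) s with
    | some t => follow T T (UU T g p0) true t s
    | none => use k T C σ (NL T (UU T g p0) true p0) (g (NL T (UU T g p0) true p0)).2.1 none s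

noncomputable def phiII (σ : List (AA A) → AA A) (s : List A) : A :=
  if s.length < 2 * k + 1 then (σ (s.map em)).1
  else bodyII k T C σ (gg k T σ (pre (2 * k + 1) s)) (pre (2 * k + 1) s) s

noncomputable def phi (p : Bool) (σ : List (AA A) → AA A) : List A → A :=
  if p = true then phiII k T C σ else phiI k T C σ

variable {k T C}

theorem bodd_even (k : ℕ) : (2 * k).bodd = false := by simp
theorem bodd_odd (k : ℕ) : (2 * k + 1).bodd = true := by simp

theorem use_mem (hT : IsTree T) {p : Bool} {σ : List (AA A) → AA A}
    (hσ : Leg (TT k T C) p σ) {S S' : Set (List A)} {u : Option (List A)} {s : List A}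
    (hs : s ∈ T) (hp : s.length.bodd = p) (hS : S ⊆ T) :
    use k T C σ S S' u s :: s ∈ T := by
  unfold use
  by_cases h : Vd k T C (insL k S S' u s)
  · rw [if_pos h]
    have h1 := hσ _ h (by rw [length_insL]; exact hp)
    have h2 := map_mem hT h1
    rw [List.map_cons, map_insL] at h2
    exact h2
  · rw [if_neg h]
    exact dfl_mem hS (hT.ext s hs)

theorem follow_mem (hT : IsTree T) {p : Bool} {S E : Set (List A)} {t s : List A}
    (hs : s ∈ T) (hS : S ⊆ T) : follow T S E p t s :: s ∈ T := by
  unfold follow
  by_cases h : tau S E p t s :: s ∈ S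
  · rw [if_pos h]; exact hS h
  · rw [if_neg h]
    exact dfl_mem hS (hT.ext s hs)

theorem pre_mem (hT : IsTree T) {s : List A} (hs : s ∈ T) (m : ℕ) : pre m s ∈ T :=
  hT.suffix (pre_suffix m s) hs

/-- the set declared by a legal strategy of player `false` is a quasi-strategy -/
theorem declared (hT : IsTree T) {σ : List (AA A) → AA A} (hσ : Leg (TT k T C) false σ)
    {s0 : List A} (hs : s0 ∈ T) (hl : s0.length = 2 * k) :
    (σ (s0.map em)).2.2 = none ∧ QS T false (σ (s0.map em)).2.1 ((σ (s0.map em)).1 :: s0) := by
  have h1 := hσ _ (map_em_mem hT hs hl.le) (by rw [List.length_map, hl]; exact bodd_even k)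
  have h2 := h1.2.one (by rw [List.length_map]; exact hl)
  have hf : (s0.map em).map Prod.fst = s0 := by
    rw [List.map_map]
    conv_rhs => rw [← List.map_id s0]
    rfl
  rw [hf] at h2
  exact h2

theorem declared_sub (hT : IsTree T) {σ : List (AA A) → AA A} (hσ : Leg (TT k T C) false σ)
    {s0 : List A} (hs : s0 ∈ T) (hl : s0.length = 2 * k) : (σ (s0.map em)).2.1 ⊆ T :=
  fun t ht => ((declared hT hσ hs hl).2.sub t ht).1

theorem low_mem (hT : IsTree T) {p : Bool} {σ : List (AA A) → AA A}
    (hσ : Leg (TT k T C) p σ) {s : List A} (hs : s ∈ T) (hp : s.length.bodd = p)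
    (hl : s.length ≤ 2 * k) : (σ (s.map em)).1 :: s ∈ T := by
  have h1 := hσ _ (map_em_mem hT hs hl) (by rw [List.length_map]; exact hp)
  have h2 := map_mem hT h1
  have hf : (s.map em).map Prod.fst = s := by
    rw [List.map_map]
    conv_rhs => rw [← List.map_id s]
    rfl
  rw [List.map_cons, hf] at h2
  exact h2

theorem phiI_leg (hT : IsTree T) {σ : List (AA A) → AA A} (hσ : Leg (TT k T C) false σ) :
    Leg T false (phiI k T C σ) := by
  intro s hs hp
  unfold phiI
  by_cases h : s.length ≤ 2 * k
  · rw [if_pos h]; exact low_mem hT hσ hs hp h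
  · rw [if_neg h]
    have hS := declared_sub hT hσ (pre_mem hT hs (2 * k)) (length_pre (by omega))
    unfold bodyI
    split
    · exact use_mem hT hσ hs hp hS
    · split
      · exact follow_mem hT hs hS
      · exact use_mem hT hσ hs hp hS

theorem wit_sub (g : Set (List A) → AA A) (p0 w : List A) : wit T g p0 w ⊆ T := by
  unfold wit
  split_ifs with h
  · exact fun t ht => (h.choose_spec.1.sub t ht).1
  · exact fun t ht => ht.elim

theorem phiII_leg (hT : IsTree T) {σ : List (AA A) → AA A} (hσ : Leg (TT k T C) true σ) :
    Leg T true (phiII k T C σ) := by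
  intro s hs hp
  unfold phiII
  by_cases h : s.length < 2 * k + 1
  · rw [if_pos h]; exact low_mem hT hσ hs hp (by omega)
  · rw [if_neg h]
    unfold bodyII
    split
    · exact use_mem hT hσ hs hp (wit_sub _ _ _)
    · split
      · exact follow_mem hT hs subset_rfl
      · exact use_mem hT hσ hs hp (fun t ht => ht.1)

theorem use_congr {p : Bool} {σ τ : List (AA A) → AA A} {n : ℕ}
    (h : ∀ s ∈ TT k T C, s.length.bodd = p → s.length ≤ n → σ s = τ s)
    {S S' : Set (List A)} {u : Option (List A)} {s : List A} (hp : s.length.bodd = p)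
    (hn : s.length ≤ n) : use k T C σ S S' u s = use k T C τ S S' u s := by
  unfold use
  by_cases h1 : Vd k T C (insL k S S' u s)
  · rw [if_pos h1, if_pos h1, h _ h1 (by rw [length_insL]; exact hp)
      (by rw [length_insL]; exact hn)]
  · rw [if_neg h1, if_neg h1]

theorem phiI_loc (hT : IsTree T) {σ τ : List (AA A) → AA A} {n : ℕ}
    (h : ∀ s ∈ TT k T C, s.length.bodd = false → s.length ≤ n → σ s = τ s)
    {s : List A} (hs : s ∈ T) (hp : s.length.bodd = false) (hn : s.length ≤ n) :
    phiI k T C σ s = phiI k T C τ s := by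
  unfold phiI
  by_cases h1 : s.length ≤ 2 * k
  · rw [if_pos h1, if_pos h1, h _ (map_em_mem hT hs h1) (by rw [List.length_map]; exact hp)
      (by rw [List.length_map]; exact hn)]
  · rw [if_neg h1, if_neg h1]
    have hl : (pre (2 * k) s).length = 2 * k := length_pre (by omega)
    have h2 : σ ((pre (2 * k) s).map em) = τ ((pre (2 * k) s).map em) :=
      h _ (map_em_mem hT (pre_mem hT hs _) hl.le)
        (by rw [List.length_map, hl]; exact bodd_even k) (by rw [List.length_map, hl]; omega)
    rw [h2]
    unfold bodyI
    split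
    · exact use_congr h hp hn
    · split
      · rfl
      · exact use_congr h hp hn

theorem gg_congr (hT : IsTree T) {σ τ : List (AA A) → AA A} {n : ℕ}
    (h : ∀ s ∈ TT k T C, s.length.bodd = true → s.length ≤ n → σ s = τ s)
    {p0 : List A} (hl : p0.length = 2 * k + 1) (hn : 2 * k + 1 ≤ n) :
    gg k T σ p0 = gg k T τ p0 := by
  funext S
  unfold gg
  by_cases h1 : QS T false S p0
  · rw [if_pos h1, if_pos h1, h _ (insL_mem0 hT hl h1) (by rw [length_insL, hl]; exact bodd_odd k)
      (by rw [length_insL, hl]; exact hn)]
  · rw [if_neg h1, if_neg h1]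

theorem phiII_loc (hT : IsTree T) {σ τ : List (AA A) → AA A} {n : ℕ}
    (h : ∀ s ∈ TT k T C, s.length.bodd = true → s.length ≤ n → σ s = τ s)
    {s : List A} (hs : s ∈ T) (hp : s.length.bodd = true) (hn : s.length ≤ n) :
    phiII k T C σ s = phiII k T C τ s := by
  unfold phiII
  by_cases h1 : s.length < 2 * k + 1
  · rw [if_pos h1, if_pos h1, h _ (map_em_mem hT hs (by omega))
      (by rw [List.length_map]; exact hp) (by rw [List.length_map]; exact hn)]
  · rw [if_neg h1, if_neg h1]
    have hl : (pre (2 * k + 1) s).length = 2 * k + 1 := length_pre (by omega)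
    rw [gg_congr hT h hl (by omega)]
    unfold bodyII
    split
    · exact use_congr h hp hn
    · split
      · rfl
      · exact use_congr h hp hn

theorem phi_low (hT : IsTree T) {p : Bool} {σ : List (AA A) → AA A} {s : List A}
    (hl : s.length < 2 * k) : phi k T C p σ s = (σ (s.map em)).1 := by
  unfold phi
  split_ifs
  · unfold phiII; rw [if_pos (by omega)]
  · unfold phiI; rw [if_pos (by omega)]

end Strat

end V11256.BD
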