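import Mathlib
import Pool.Agent.V11256.BD.D

/-!
# Borel determinacy, part F: lifting of plays in the unravelling game
-/

namespace V11256.BD

open Classical

section Lift

variable {A : Type} [Nonempty A] {k : ℕ} {T C : Set (List A)}

omit [Nonempty A] in
theorem map_em_fst (s : List A) : (s.map em).map Prod.fst = s := by
  rw [List.map_map]
  conv_rhs => rw [← List.map_id s]
  rfl

omit [Nonempty A] in
theorem br_ins (hT : IsTree T) {x : ℕ → A} (hx : Br T x) {S S' : Set (List A)}
    {u : Option (List A)} (hS : QS T false S (pos x (2 * k + 1)))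
    (ho : Opt C S (S', u) (pos x (2 * k + 2)))
    (hR : ∀ j, 2 * k + 2 ≤ j → pos x j ∈ (match u with
        | some w => {q | q ∈ T ∧ (q <:+ w ∨ w <:+ q)}
        | none => S')) :
    Br (TT k T C) (fun n => ent k S S' u n (x n)) := by
  intro n
  rw [pos_ins]
  show Vd k T C _
  rcases Nat.lt_or_ge n (2 * k + 2) with h | h
  · rcases Nat.lt_or_ge n (2 * k + 1) with h' | h'
    · rw [insL_low (by rw [length_pos]; omega)]
      exact map_em_mem hT (hx n) (by rw [length_pos]; omega)
    · have : n = 2 * k + 1 := by omega
      subst this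
      exact insL_mem0 hT (length_pos _ _) hS
  · refine insL_mem hT (length_pos x (2 * k + 1)) (a := x (2 * k + 1)) hS ho
      (pos_suffix x h) (fun r hr hrs => ?_)
    have h1 := suffix_pos hrs
    have h2 := hr.length_le
    rw [List.length_cons, length_pos] at h2
    rw [h1.1]
    exact ⟨hx _, hR _ h2⟩

omit [Nonempty A] in
theorem vd_ins (hT : IsTree T) {x : ℕ → A} (hx : Br T x) {S S' : Set (List A)}
    {u : Option (List A)} (hS : QS T false S (pos x (2 * k + 1)))
    (ho : Opt C S (S', u) (pos x (2 * k + 2))) {n : ℕ} (h : 2 * k + 2 ≤ n)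
    (hR : ∀ j, 2 * k + 2 ≤ j → j ≤ n → pos x j ∈ (match u with
        | some w => {q | q ∈ T ∧ (q <:+ w ∨ w <:+ q)}
        | none => S')) :
    Vd k T C (insL k S S' u (pos x n)) := by
  refine insL_mem hT (length_pos x (2 * k + 1)) (a := x (2 * k + 1)) hS ho
    (pos_suffix x h) (fun r hr hrs => ?_)
  have h1 := suffix_pos hrs
  have h2 := hr.length_le
  rw [List.length_cons, length_pos] at h2
  rw [h1.1]
  exact ⟨hx _, hR _ h2 h1.2⟩

omit [Nonempty A] in
theorem leg_triv {p : Bool} {σ : List (AA A) → AA A} (hσ : Leg (TT k T C) p σ)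
    {t : List (AA A)} (ht : Vd k T C t) (hp : t.length.bodd = p) (h1 : t.length ≠ 2 * k)
    (h2 : t.length ≠ 2 * k + 1) : (σ t).2 = (∅, none) :=
  (hσ t ht hp).2.triv h1 h2

theorem use_eq {σ : List (AA A) → AA A} {S S' : Set (List A)} {u : Option (List A)}
    {s : List A} (h : Vd k T C (insL k S S' u s)) :
    use k T C σ S S' u s = (σ (insL k S S' u s)).1 := by
  unfold use; rw [if_pos h]

theorem use_none_mem {p : Bool} {σ : List (AA A) → AA A} (hσ : Leg (TT k T C) p σ)
    {S S' : Set (List A)} {x : ℕ → A} {n : ℕ} (hn : 2 * k + 2 ≤ n) (hp : n.bodd = p)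
    (h : Vd k T C (insL k S S' none (pos x n))) :
    use k T C σ S S' none (pos x n) :: pos x n ∈ S' := by
  rw [use_eq h]
  have h1 := hσ _ h (by rw [length_insL, length_pos]; exact hp)
  have h2 := h1.2.acc
  rw [map_insL, acc_insL (length_pos x (2 * k + 1)) (a := x (2 * k + 1)) (pos_suffix x hn)] at h2
  exact h2

omit [Nonempty A] in
/-- a forced move follows the declared position -/
theorem forced {p : Bool} {σ : List (AA A) → AA A} (hσ : Leg (TT k T C) p σ)
    {S S' : Set (List A)} {x : ℕ → A} {n m : ℕ} (hn : 2 * k + 2 ≤ n) (hnm : n < m)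
    (hp : n.bodd = p) (h : Vd k T C (insL k S S' (some (pos x m)) (pos x n))) :
    (σ (insL k S S' (some (pos x m)) (pos x n))).1 = x n := by
  have h1 := hσ _ h (by rw [length_insL, length_pos]; exact hp)
  have h2 := h1.2.acc
  rw [map_insL, acc_insL (length_pos x (2 * k + 1)) (a := x (2 * k + 1)) (pos_suffix x hn)] at h2
  have h3 : (σ (insL k S S' (some (pos x m)) (pos x n))).1 :: pos x n <:+ pos x m := by
    rcases h2.2 with h3 | h3
    · exact h3
    · have := h3.eq_of_length_le (by rw [List.length_cons, length_pos, length_pos]; omega)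
      exact ⟨[], by rw [List.nil_append]; exact this.symm⟩
  have h4 := (suffix_pos h3).1
  rw [List.length_cons, length_pos, pos_succ, List.cons.injEq] at h4
  exact h4.1

theorem liftI (hT : IsTree T) {σ : List (AA A) → AA A}
    (hσ : Leg (TT k T C) false σ) {x : ℕ → A} (hx : Br T x)
    (hf : Fol false (phiI k T C σ) x) :
    ∃ x' : ℕ → AA A, Br (TT k T C) x' ∧ Fol false σ x' ∧ ∀ n, (x' n).1 = x n := by
  set S : Set (List A) := (σ ((pos x (2 * k)).map em)).2.1 with hSdef
  have h0 : x (2 * k) = (σ ((pos x (2 * k)).map em)).1 := by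
    have := hf (2 * k) (bodd_even k)
    unfold phiI at this
    rwa [if_pos (by rw [length_pos])] at this
  obtain ⟨hnone, hS⟩ := declared hT hσ (hx (2 * k)) (length_pos _ _)
  rw [← h0, ← pos_succ, ← hSdef] at hS
  have hbody : ∀ n, 2 * k + 2 ≤ n → n.bodd = false → x n = bodyI k T C σ S (pos x n) := by
    intro n hn hb
    have := hf n hb
    unfold phiI at this
    rwa [if_neg (by rw [length_pos]; omega), pre_pos x (by omega), ← hSdef] at this
  have hqS : pos x (2 * k + 2) ∈ S := by
    refine hS.opp _ hS.mem ?_ (x (2 * k + 1)) ?_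
    · rw [length_pos]; simp
    · rw [← pos_succ]; exact hx _
  have stay : ∀ m, (∀ j, 2 * k + 2 ≤ j → j < m → pos x j ∈ C) →
      ∀ n, 2 * k + 2 ≤ n → n ≤ m → pos x n ∈ S := by
    intro m hm n hn
    induction n, hn using Nat.le_induction with
    | base => intro _; exact hqS
    | succ n hn ih =>
      intro hnm
      have hnS := ih (by omega)
      cases hb : n.bodd with
      | true =>
        refine hS.opp _ hnS (by rw [length_pos, hb]; simp) (x n) ?_
        rw [← pos_succ]; exact hx _
      | false =>
        have hown := hS.own _ hnS (by rw [length_pos]; exact hb)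
        have hxn := hbody n hn hb
        have hfn : fh Cᶜ (2 * k + 2) (pos x n) = none :=
          fh_none (fun j h1 h2 h3 => h3 (hm j h1 (by omega)))
        rw [pos_succ, hxn]
        unfold bodyI
        rw [hfn]
        simp only
        split
        · unfold follow
          split_ifs with h
          · exact h
          · exact dfl_mem_left hown
        · by_cases hV : Vd k T C (insL k S (NL S Cᶜ false (pre (2 * k + 2) (pos x n))) none
            (pos x n))
          · exact (use_none_mem hσ hn hb hV).1
          · unfold use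
            rw [if_neg hV]
            exact dfl_mem_left hown
  -- the moves before time `2k+2`
  have early : ∀ (S' : Set (List A)) (u : Option (List A)) (n : ℕ), n < 2 * k + 2 →
      n.bodd = false → ent k S S' u n (x n) = σ (insL k S S' u (pos x n)) := by
    intro S' u n hn hb
    have hn2 : n ≤ 2 * k := by
      rcases Nat.lt_or_ge (2 * k) n with h | h
      · have : n = 2 * k + 1 := by omega
        rw [this, bodd_odd] at hb; simp at hb
      · exact h
    rw [insL_low (by rw [length_pos]; exact hn2)]
    have hxn := hf n hb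
    unfold phiI at hxn
    rw [if_pos (by rw [length_pos]; exact hn2)] at hxn
    unfold ent
    by_cases h : n = 2 * k
    · subst h
      rw [if_pos rfl]
      refine Prod.ext h0 (Prod.ext hSdef hnone.symm)
    · rw [if_neg h, if_neg (by omega)]
      refine Prod.ext hxn ?_
      have := leg_triv hσ (map_em_mem hT (hx n) (by rw [length_pos]; exact hn2))
        (by rw [List.length_map, length_pos]; exact hb)
        (by rw [List.length_map, length_pos]; exact h)
        (by rw [List.length_map, length_pos]; omega)
      exact this.symm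
  have late : ∀ (S' : Set (List A)) (u : Option (List A)) (n : ℕ), 2 * k + 2 ≤ n →
      n.bodd = false → Vd k T C (insL k S S' u (pos x n)) →
      x n = (σ (insL k S S' u (pos x n))).1 →
      ent k S S' u n (x n) = σ (insL k S S' u (pos x n)) := by
    intro S' u n hn hb hV hxn
    have hent : ent k S S' u n (x n) = (x n, ∅, none) := by
      unfold ent; rw [if_neg (by omega), if_neg (by omega)]
    rw [hent]
    refine Prod.ext hxn ?_
    exact (leg_triv hσ hV (by rw [length_insL, length_pos]; exact hb)
      (by rw [length_insL, length_pos]; omega) (by rw [length_insL, length_pos]; omega)).symm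
  by_cases hE : ∃ m, 2 * k + 2 ≤ m ∧ pos x m ∉ C
  · -- the play leaves `C`
    set m := Nat.find hE with hm
    have hm1 : 2 * k + 2 ≤ m := (Nat.find_spec hE).1
    have hm2 : pos x m ∉ C := (Nat.find_spec hE).2
    have hm3 : ∀ j, 2 * k + 2 ≤ j → j < m → pos x j ∈ C := by
      intro j h1 h2
      by_contra h3
      exact Nat.find_min hE h2 ⟨h1, h3⟩
    have hwS : pos x m ∈ S := stay m hm3 m hm1 le_rfl
    have ho : Opt C S (∅, some (pos x m)) (pos x (2 * k + 2)) :=
      Or.inl ⟨_, rfl, hwS, pos_suffix x hm1, hm2⟩
    have hR : ∀ j, 2 * k + 2 ≤ j → pos x j ∈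
        {q | q ∈ T ∧ (q <:+ pos x m ∨ pos x m <:+ q)} := by
      intro j _
      refine ⟨hx j, ?_⟩
      rcases Nat.le_total j m with h | h
      · exact Or.inl (pos_suffix x h)
      · exact Or.inr (pos_suffix x h)
    have hbr := br_ins hT hx (u := some (pos x m)) hS ho hR
    refine ⟨_, hbr, ?_, fun n => ent_fst n (x n)⟩
    intro n hb
    rw [pos_ins]
    have hV : Vd k T C (insL k S ∅ (some (pos x m)) (pos x n)) := by
      have := hbr n
      rwa [pos_ins] at this
    rcases Nat.lt_or_ge n (2 * k + 2) with h | h
    · exact early _ _ n h hb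
    · refine late _ _ n h hb hV ?_
      rcases Nat.lt_or_ge n m with h1 | h1
      · exact (forced hσ h h1 hb hV).symm
      · have hxn := hbody n h hb
        unfold bodyI at hxn
        rw [fh_some (P := Cᶜ) hm1 h1 hm2 (fun j h2 h3 h4 => h4 (hm3 j h2 h3))] at hxn
        simp only at hxn
        rw [use_eq hV] at hxn
        exact hxn
  · -- the play stays in `C`
    push Not at hE
    have hallS : ∀ n, 2 * k + 2 ≤ n → pos x n ∈ S := fun n hn =>
      stay n (fun j h1 _ => hE j h1) n hn le_rfl
    have hfn : ∀ n, fh Cᶜ (2 * k + 2) (pos x n) = none := fun n =>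
      fh_none (fun j h1 _ h3 => h3 (hE j h1))
    have hW : ∀ m, 2 * k + 2 ≤ m → ¬ Win S Cᶜ false (pos x m) := by
      by_contra hcon
      push Not at hcon
      have hex : ∃ m, 2 * k + 2 ≤ m ∧ Win S Cᶜ false (pos x m) := hcon
      set m := Nat.find hex with hm
      have hm1 : 2 * k + 2 ≤ m := (Nat.find_spec hex).1
      have hm2 : Win S Cᶜ false (pos x m) := (Nat.find_spec hex).2
      have hm3 : ∀ j, 2 * k + 2 ≤ j → j < m → ¬ Win S Cᶜ false (pos x j) := by
        intro j h1 h2 h3
        exact Nat.find_min hex h2 ⟨h1, h3⟩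
      obtain ⟨n, hn1, hn2⟩ := tau_spec hm2 x (by rw [length_pos])
        (fun n hn => hallS n (by rw [length_pos] at hn; omega)) (by
        intro n hn hb ht
        rw [length_pos] at hn
        have hxn := hbody n (by omega) hb
        unfold bodyI at hxn
        rw [hfn n, fh_some (P := {t | Win S Cᶜ false t}) hm1 hn hm2 hm3] at hxn
        simp only at hxn
        unfold follow at hxn
        rw [if_pos ht] at hxn
        exact hxn)
      rw [length_pos] at hn1
      exact hn2 (hE n (by omega))
    have hNL : QS S true (NL S Cᶜ false (pos x (2 * k + 2))) (pos x (2 * k + 2)) := by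
      have := NL_QS (T := S) (E := Cᶜ) (p := false) hqS (hW _ le_rfl)
        (fun a s h1 h2 => hS.tail a s h1 ((List.suffix_cons _ _).trans h2))
      simpa using this
    have ho : Opt C S (NL S Cᶜ false (pos x (2 * k + 2)), none) (pos x (2 * k + 2)) := by
      refine Or.inr ⟨_, rfl, hNL, fun t ht => ?_⟩
      have := NL_sub_compl ht
      simpa using this
    have hR : ∀ j, 2 * k + 2 ≤ j → pos x j ∈ NL S Cᶜ false (pos x (2 * k + 2)) := by
      intro j hj
      refine ⟨hallS j hj, pos_suffix x hj, fun r h1 h2 => ?_⟩
      rw [(suffix_pos h2).1]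
      have := h1.length_le
      rw [length_pos] at this
      exact hW _ this
    have hbr := br_ins hT hx (u := none) hS ho hR
    refine ⟨_, hbr, ?_, fun n => ent_fst n (x n)⟩
    intro n hb
    rw [pos_ins]
    have hV : Vd k T C (insL k S (NL S Cᶜ false (pos x (2 * k + 2))) none (pos x n)) := by
      have := hbr n
      rwa [pos_ins] at this
    rcases Nat.lt_or_ge n (2 * k + 2) with h | h
    · exact early _ _ n h hb
    · refine late _ _ n h hb hV ?_
      have hxn := hbody n h hb
      unfold bodyI at hxn
      rw [hfn n, fh_none (P := {t | Win S Cᶜ false t}) (fun j h1 _ => hW j h1)] at hxn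
      simp only at hxn
      rw [pre_pos x h, use_eq hV] at hxn
      exact hxn

omit [Nonempty A] in
theorem opt_some {S : Set (List A)} {w q : List A} (h : Opt C S (∅, some w) q) :
    w ∈ S ∧ q <:+ w ∧ w ∉ C := by
  rcases h with ⟨w', h1, h2⟩ | ⟨S', h1, _⟩
  · simp only [Prod.mk.injEq, Option.some.injEq, true_and] at h1
    subst h1; exact h2
  · simp at h1

theorem gg_eq {σ : List (AA A) → AA A} {p0 : List A} {S : Set (List A)}
    (h : QS T false S p0) : gg k T σ p0 S = σ (insL k S ∅ none p0) := by
  unfold gg; rw [if_pos h]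

theorem gg_opt (hT : IsTree T) {σ : List (AA A) → AA A} (hσ : Leg (TT k T C) true σ)
    {p0 : List A} (hl : p0.length = 2 * k + 1) {S : Set (List A)} (h : QS T false S p0) :
    Opt C S (gg k T σ p0 S).2 ((gg k T σ p0 S).1 :: p0) := by
  rw [gg_eq h]
  have h1 := hσ _ (insL_mem0 (S' := ∅) (u := none) hT hl h)
    (by rw [length_insL, hl]; exact bodd_odd k)
  have h2 := h1.2.two (by rw [length_insL]; exact hl)
  rwa [hd_insL hl, map_insL] at h2

theorem UU_spec (hT : IsTree T) {σ : List (AA A) → AA A} (hσ : Leg (TT k T C) true σ)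
    {p0 : List A} (hl : p0.length = 2 * k + 1) {w : List A}
    {S : Set (List A)} (h : QS T false S p0) {b : A} (hb : gg k T σ p0 S = (b, ∅, some w)) :
    w ∈ S ∧ b :: p0 <:+ w ∧ w ∉ C := by
  have := gg_opt hT hσ hl h
  rw [hb] at this
  exact opt_some this

theorem liftII (hT : IsTree T) {σ : List (AA A) → AA A}
    (hσ : Leg (TT k T C) true σ) {x : ℕ → A} (hx : Br T x)
    (hf : Fol true (phiII k T C σ) x) :
    ∃ x' : ℕ → AA A, Br (TT k T C) x' ∧ Fol true σ x' ∧ ∀ n, (x' n).1 = x n := by
  set p0 := pos x (2 * k + 1) with hp0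
  have hl0 : p0.length = 2 * k + 1 := length_pos _ _
  set g := gg k T σ p0 with hg
  set U := UU T g p0 with hU
  have hUlen : ∀ w ∈ U, 2 * k + 2 ≤ w.length := by
    rintro w ⟨S, hS, b, hb⟩
    have := (UU_spec hT hσ hl0 hS hb).2.1.length_le
    rw [List.length_cons, hl0] at this
    omega
  have hbody : ∀ n, 2 * k + 1 ≤ n → n.bodd = true → x n = bodyII k T C σ g p0 (pos x n) := by
    intro n hn hb
    have := hf n hb
    unfold phiII at this
    rwa [if_neg (by rw [length_pos]; omega), pre_pos x (by omega)] at this
  have low : ∀ (S S' : Set (List A)) (u : Option (List A)) (n : ℕ), n < 2 * k + 1 →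
      n.bodd = true → ent k S S' u n (x n) = σ (insL k S S' u (pos x n)) := by
    intro S S' u n hn hb
    have hn2 : n < 2 * k := by
      rcases Nat.lt_or_ge n (2 * k) with h | h
      · exact h
      · have : n = 2 * k := by omega
        rw [this, bodd_even] at hb; simp at hb
    rw [insL_low (by rw [length_pos]; exact hn2.le)]
    have hxn := hf n hb
    unfold phiII at hxn
    rw [if_pos (by rw [length_pos]; omega)] at hxn
    unfold ent
    rw [if_neg (by omega), if_neg (by omega)]
    refine Prod.ext hxn ?_
    exact (leg_triv hσ (map_em_mem hT (hx n) (by rw [length_pos]; exact hn2.le))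
      (by rw [List.length_map, length_pos]; exact hb)
      (by rw [List.length_map, length_pos]; omega)
      (by rw [List.length_map, length_pos]; omega)).symm
  have late : ∀ (S S' : Set (List A)) (u : Option (List A)) (n : ℕ), 2 * k + 2 ≤ n →
      n.bodd = true → Vd k T C (insL k S S' u (pos x n)) →
      x n = (σ (insL k S S' u (pos x n))).1 →
      ent k S S' u n (x n) = σ (insL k S S' u (pos x n)) := by
    intro S S' u n hn hb hV hxn
    have hent : ent k S S' u n (x n) = (x n, ∅, none) := by
      unfold ent; rw [if_neg (by omega), if_neg (by omega)]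
    rw [hent]
    refine Prod.ext hxn ?_
    exact (leg_triv hσ hV (by rw [length_insL, length_pos]; exact hb)
      (by rw [length_insL, length_pos]; omega) (by rw [length_insL, length_pos]; omega)).symm
  by_cases hE : ∃ m, 2 * k + 2 ≤ m ∧ pos x m ∈ U
  · -- the play reaches `U`
    set m := Nat.find hE with hm
    have hm1 : 2 * k + 2 ≤ m := (Nat.find_spec hE).1
    have hm2 : pos x m ∈ U := (Nat.find_spec hE).2
    have hm3 : ∀ j, 2 * k + 2 ≤ j → j < m → pos x j ∉ U := by
      intro j h1 h2 h3
      exact Nat.find_min hE h2 ⟨h1, h3⟩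
    set S := wit T g p0 (pos x m) with hSdef
    have hSspec : QS T false S p0 ∧ ∃ b, g S = (b, ∅, some (pos x m)) := by
      have h1 : ∃ S, QS T false S p0 ∧ ∃ b, g S = (b, ∅, some (pos x m)) := hm2
      rw [hSdef]
      unfold wit
      rw [dif_pos h1]
      exact h1.choose_spec
    obtain ⟨hS, b, hb⟩ := hSspec
    obtain ⟨hw1, hw2, hw3⟩ := UU_spec hT hσ hl0 hS hb
    have hbx : b = x (2 * k + 1) := by
      have := (suffix_pos hw2).1
      rw [List.length_cons, hl0, pos_succ, List.cons.injEq] at this
      exact this.1
    have ho : Opt C S (∅, some (pos x m)) (pos x (2 * k + 2)) :=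
      Or.inl ⟨_, rfl, hw1, pos_suffix x hm1, hw3⟩
    have hR : ∀ j, 2 * k + 2 ≤ j → pos x j ∈
        {q | q ∈ T ∧ (q <:+ pos x m ∨ pos x m <:+ q)} := by
      intro j _
      refine ⟨hx j, ?_⟩
      rcases Nat.le_total j m with h | h
      · exact Or.inl (pos_suffix x h)
      · exact Or.inr (pos_suffix x h)
    have hbr := br_ins hT hx (u := some (pos x m)) hS ho hR
    refine ⟨_, hbr, ?_, fun n => ent_fst n (x n)⟩
    intro n hbn
    rw [pos_ins]
    have hV : Vd k T C (insL k S ∅ (some (pos x m)) (pos x n)) := by
      have := hbr n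
      rwa [pos_ins] at this
    rcases Nat.lt_or_ge n (2 * k + 1) with h | h
    · exact low _ _ _ n h hbn
    rcases Nat.lt_or_ge n (2 * k + 2) with h' | h'
    · have hn : n = 2 * k + 1 := by omega
      subst hn
      show ent k S ∅ (some (pos x m)) (2 * k + 1) (x (2 * k + 1)) = _
      rw [insL_one (by rw [length_pos]) ∅ none, ← hp0, ← gg_eq (σ := σ) hS, ← hg, hb, hbx]
      unfold ent
      rw [if_neg (by omega), if_pos rfl]
    · refine late _ _ _ n h' hbn hV ?_
      rcases Nat.lt_or_ge n m with h1 | h1
      · exact (forced hσ h' h1 hbn hV).symm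
      · have hxn := hbody n (by omega) hbn
        unfold bodyII at hxn
        rw [← hU, fh_some hm1 h1 hm2 hm3] at hxn
        simp only at hxn
        rw [← hSdef, use_eq hV] at hxn
        exact hxn
  · push Not at hE
    have hfn : ∀ n, fh U (2 * k + 2) (pos x n) = none := fun n =>
      fh_none (fun j h1 _ => hE j h1)
    have hW : ∀ m, 2 * k + 1 ≤ m → ¬ Win T U true (pos x m) := by
      by_contra hcon
      push Not at hcon
      have hex : ∃ m, 2 * k + 1 ≤ m ∧ Win T U true (pos x m) := hcon
      set m := Nat.find hex with hm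
      have hm1 : 2 * k + 1 ≤ m := (Nat.find_spec hex).1
      have hm2 : Win T U true (pos x m) := (Nat.find_spec hex).2
      have hm3 : ∀ j, 2 * k + 1 ≤ j → j < m → ¬ Win T U true (pos x j) := by
        intro j h1 h2 h3
        exact Nat.find_min hex h2 ⟨h1, h3⟩
      obtain ⟨n, hn1, hn2⟩ := tau_spec hm2 x (by rw [length_pos])
        (fun n _ => hx n) (by
        intro n hn hb ht
        rw [length_pos] at hn
        have hxn := hbody n (by omega) hb
        unfold bodyII at hxn
        rw [← hU, hfn n, fh_some (P := {t | Win T U true t}) hm1 hn hm2 hm3] at hxn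
        simp only at hxn
        unfold follow at hxn
        rw [if_pos ht] at hxn
        exact hxn)
      have := hUlen _ hn2
      rw [length_pos] at this
      exact hE n this hn2
    set S := NL T U true p0 with hSdef
    have hS : QS T false S p0 := by
      have := NL_QS (T := T) (E := U) (p := true) (hx (2 * k + 1)) (hW _ le_rfl)
        (fun a s h1 _ => hT.tail a s h1)
      simpa using this
    have hopt := gg_opt hT hσ hl0 hS
    rw [← hg] at hopt
    obtain ⟨b, hb⟩ : ∃ b, (g S).1 = b := ⟨_, rfl⟩
    rw [hb] at hopt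
    rcases hopt with ⟨w, h1, h2, _⟩ | ⟨S', h1, h2, h3⟩
    · exfalso
      have hwU : w ∈ U := ⟨S, hS, b, Prod.ext hb h1⟩
      exact NL_sub_compl h2 hwU
    have hgS : g S = (b, S', none) := Prod.ext hb h1
    have hσp : ∀ S2 u2, σ (insL k S S2 u2 p0) = (b, S', none) := by
      intro S2 u2
      rw [← hgS, hg, gg_eq hS, insL_one (hl0.le) ∅ none]
    have hbx : x (2 * k + 1) = b := by
      have hxn := hbody (2 * k + 1) le_rfl (bodd_odd k)
      unfold bodyII at hxn
      rw [← hU, hfn, fh_none (P := {t | Win T U true t}) (fun j h1 _ => hW j h1)] at hxn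
      simp only at hxn
      rw [← hSdef, ← hp0, use_eq (insL_mem0 hT hl0 hS), hσp] at hxn
      exact hxn
    have hq : b :: p0 = pos x (2 * k + 2) := by rw [← hbx]; rfl
    rw [hq] at h2
    have ho : Opt C S (S', none) (pos x (2 * k + 2)) := Or.inr ⟨S', rfl, h2, h3⟩
    have hbody' : ∀ n, 2 * k + 2 ≤ n → n.bodd = true →
        x n = use k T C σ S S' none (pos x n) := by
      intro n hn hbn
      have hxn := hbody n (by omega) hbn
      unfold bodyII at hxn
      rw [← hU, hfn, fh_none (P := {t | Win T U true t}) (fun j h1 _ => hW j h1)] at hxn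
      simp only at hxn
      rw [← hSdef, hgS] at hxn
      exact hxn
    have stay : ∀ n, 2 * k + 2 ≤ n → ∀ j, 2 * k + 2 ≤ j → j ≤ n → pos x j ∈ S' := by
      intro n hn
      induction n, hn using Nat.le_induction with
      | base =>
        intro j h4 h5
        have : j = 2 * k + 2 := by omega
        subst this; exact h2.mem
      | succ n hn ih =>
        intro j h4 h5
        rcases Nat.lt_or_ge j (n + 1) with h6 | h6
        · exact ih j h4 (by omega)
        · have : j = n + 1 := by omega
          subst this
          have hnS := ih n hn le_rfl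
          cases hbn : n.bodd with
          | false =>
            refine h2.opp _ hnS (by rw [length_pos, hbn]; simp) (x n) ?_
            rw [← pos_succ]
            refine ⟨hx _, pos_suffix x (by omega), fun r h7 h8 => ?_⟩
            rw [(suffix_pos h8).1]
            have := h7.length_le
            rw [hl0] at this
            exact hW _ this
          | true =>
            have hV := vd_ins hT hx (u := none) hS ho hn (fun j h7 h8 => ih j h7 h8)
            rw [pos_succ, hbody' n hn hbn]
            exact use_none_mem hσ hn hbn hV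
    have hR : ∀ j, 2 * k + 2 ≤ j → pos x j ∈ S' := fun j hj => stay j hj j hj le_rfl
    have hbr := br_ins hT hx (u := none) hS ho hR
    refine ⟨_, hbr, ?_, fun n => ent_fst n (x n)⟩
    intro n hbn
    rw [pos_ins]
    have hV : Vd k T C (insL k S S' none (pos x n)) := by
      have := hbr n
      rwa [pos_ins] at this
    rcases Nat.lt_or_ge n (2 * k + 1) with h | h
    · exact low _ _ _ n h hbn
    rcases Nat.lt_or_ge n (2 * k + 2) with h' | h'
    · have hn : n = 2 * k + 1 := by omega
      subst hn
      show ent k S S' none (2 * k + 1) (x (2 * k + 1)) = _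
      rw [← hp0, hσp, hbx]
      unfold ent
      rw [if_neg (by omega), if_pos rfl]
    · refine late _ _ _ n h' hbn hV ?_
      rw [hbody' n h' hbn, use_eq hV]

end Lift

/-- the unravelling covering of a closed set -/
noncomputable def unravel (k : ℕ) (G : GT) (C : Set (List G.A)) :
    Cov k G ⟨AA G.A, TT k G.T C, TT_tree G.tree⟩ := by
  have _ : Nonempty G.A := ⟨(G.tree.ext [] G.tree.nil).choose⟩
  exact
  { f := Prod.fst
    e := em
    fe := fun _ => rfl
    mapf := fun s hs => map_mem G.tree hs
    mape := fun s hs hl => map_em_mem G.tree hs hl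
    uniq := by
      intro s hs hl
      induction s with
      | nil => rfl
      | cons a t ih =>
        simp only [List.length_cons] at hl
        have h1 : a.2 = (∅, none) := hs.2.triv (by omega) (by omega)
        rw [List.map_cons, List.map_cons, ih hs.1 (by omega)]
        congr 1
        exact Prod.ext rfl h1.symm
    φ := fun p σ => phi k G.T C p σ
    leg := by
      intro p σ hσ
      cases p with
      | false => exact phiI_leg G.tree hσ
      | true => exact phiII_leg G.tree hσ
    loc := by
      intro p σ τ n _ _ h s hs hp hn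
      cases p with
      | false => exact phiI_loc G.tree h hs hp hn
      | true => exact phiII_loc G.tree h hs hp hn
    low := fun p σ _ s _ _ hl => phi_low G.tree hl
    lift := by
      intro p σ hσ x hx hf
      cases p with
      | false => exact liftI G.tree hσ hx hf
      | true => exact liftII G.tree hσ hx hf }

end V11256.BD
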