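import Mathlib
import Pool.Agent.V11256.BD.B

/-!
# Borel determinacy, part L: inverse limits of coverings
-/

namespace V11256.BD

noncomputable def GT.ex (G : GT) (s : List G.A) : G.A := by
  classical
  exact if h : ∃ a, a :: s ∈ G.T then h.choose else (G.tree.ext [] G.tree.nil).choose

theorem GT.ex_mem (G : GT) {s : List G.A} (hs : s ∈ G.T) : G.ex s :: s ∈ G.T := by
  have h : ∃ a, a :: s ∈ G.T := G.tree.ext s hs
  unfold GT.ex
  rw [dif_pos h]
  exact h.choose_spec

section Limit

variable {k : ℕ} (G : ℕ → GT) (C : ∀ i, Cov (k + i) (G i) (G (i + 1)))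

def Coh (b : ∀ i, (G i).A) : Prop := ∀ i, (C i).f (b (i + 1)) = b i

def LT : Set (List (∀ i, (G i).A)) :=
  {s | (∀ i, s.map (fun b => b i) ∈ (G i).T) ∧ ∀ b ∈ s, Coh G C b}

theorem exists_thread : ∀ (i : ℕ) (a : (G i).A), ∃ b : ∀ j, (G j).A, b i = a ∧ Coh G C b ∧
    ∀ j, i ≤ j → b (j + 1) = (C j).e (b j) := by
  intro i
  induction i with
  | zero =>
    intro a
    refine ⟨fun j => Nat.rec (motive := fun j => (G j).A) a (fun j c => (C j).e c) j, rfl, ?_, ?_⟩
    · intro j; exact (C j).fe _
    · intro j _; rfl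
  | succ i ih =>
    intro a
    obtain ⟨b, hb, hc, _⟩ := ih ((C i).f a)
    set b2 : ∀ j, (G j).A := Function.update b (i + 1) a with hb2
    set b3 : ∀ j, (G j).A := fun j => Nat.rec (motive := fun j => (G j).A) (b2 0)
      (fun j c => if j + 1 ≤ i + 1 then b2 (j + 1) else (C j).e c) j with hb3
    have hle : ∀ j ≤ i + 1, b3 j = b2 j := by
      intro j hj
      cases j with
      | zero => rfl
      | succ j => simp only [hb3]; rw [if_pos hj]
    have hgt : ∀ j, i + 1 ≤ j → b3 (j + 1) = (C j).e (b3 j) := by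
      intro j hj
      simp only [hb3]; rw [if_neg (by omega)]
    have h2 : ∀ j ≤ i, b2 j = b j := by
      intro j hj
      rw [hb2, Function.update_of_ne (by omega)]
    refine ⟨b3, ?_, ?_, hgt⟩
    · rw [hle _ le_rfl, hb2, Function.update_self]
    · intro j
      by_cases hj : j + 1 ≤ i + 1
      · rw [hle _ hj, hle j (by omega), h2 j (by omega)]
        rcases Nat.lt_or_ge (j + 1) (i + 1) with h3 | h3
        · rw [h2 _ (by omega)]; exact hc j
        · have : j = i := by omega
          subst this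
          rw [hb2, Function.update_self]; exact hb.symm
      · rw [hgt j (by omega)]; exact (C j).fe _

noncomputable def E (i : ℕ) (a : (G i).A) : ∀ j, (G j).A := (exists_thread G C i a).choose

theorem E_self (i : ℕ) (a : (G i).A) : E G C i a i = a := (exists_thread G C i a).choose_spec.1
theorem E_coh (i : ℕ) (a : (G i).A) : Coh G C (E G C i a) :=
  (exists_thread G C i a).choose_spec.2.1
theorem E_up (i : ℕ) (a : (G i).A) : ∀ j, i ≤ j → E G C i a (j + 1) = (C j).e (E G C i a j) :=
  (exists_thread G C i a).choose_spec.2.2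

theorem thread_unique (i : ℕ) {b b' : ∀ j, (G j).A} (hb : Coh G C b) (hb' : Coh G C b')
    (h : b i = b' i) (u : ∀ j, i ≤ j → b (j + 1) = (C j).e (b j))
    (u' : ∀ j, i ≤ j → b' (j + 1) = (C j).e (b' j)) : b = b' := by
  funext j
  rcases Nat.le_total i j with hj | hj
  · induction j, hj using Nat.le_induction with
    | base => exact h
    | succ j hj ih => rw [u j hj, u' j hj, ih]
  · refine Nat.decreasingInduction (motive := fun j _ => b j = b' j) ?_ h hj
    intro j _ ih
    rw [← hb j, ← hb' j, ih]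

theorem up_of_mem {s : List (∀ j, (G j).A)} (hs : s ∈ LT G C) {i : ℕ}
    (hl : s.length ≤ 2 * (k + i)) : ∀ b ∈ s, ∀ j, i ≤ j → b (j + 1) = (C j).e (b j) := by
  intro b hb j hj
  have h1 := (C j).uniq _ (hs.1 (j + 1)) (by rw [List.length_map]; omega)
  rw [List.map_map, List.map_map, List.map_inj_left] at h1
  have h2 := h1 b hb
  simp only [Function.comp_apply] at h2
  rw [hs.2 b hb j] at h2
  exact h2.symm

theorem E_of_mem {s : List (∀ j, (G j).A)} (hs : s ∈ LT G C) {i : ℕ}
    (hl : s.length ≤ 2 * (k + i)) : ∀ b ∈ s, E G C i (b i) = b := by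
  intro b hb
  exact thread_unique G C i (E_coh G C i _) (hs.2 b hb) (E_self G C i _) (E_up G C i _)
    (up_of_mem G C hs hl b hb)

theorem mapE_of_mem {s : List (∀ j, (G j).A)} (hs : s ∈ LT G C) {i : ℕ}
    (hl : s.length ≤ 2 * (k + i)) : (s.map (fun b => b i)).map (E G C i) = s := by
  rw [List.map_map]
  conv_rhs => rw [← List.map_id s]
  rw [List.map_inj_left]
  intro b hb
  exact E_of_mem G C hs hl b hb

theorem map_E_map (i : ℕ) (s : List (G i).A) :
    (s.map (E G C i)).map (fun b => b i) = s := by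
  rw [List.map_map]
  conv_rhs => rw [← List.map_id s]
  rw [List.map_inj_left]
  intro a _
  exact E_self G C i a

theorem mapE_mem {i : ℕ} {s : List (G i).A} (hs : s ∈ (G i).T) (hl : s.length ≤ 2 * (k + i)) :
    s.map (E G C i) ∈ LT G C := by
  refine ⟨?_, ?_⟩
  · intro j
    rw [List.map_map]
    have h0 : s.map ((fun b : ∀ j, (G j).A => b i) ∘ E G C i) ∈ (G i).T := by
      rw [← List.map_map, map_E_map]; exact hs
    rcases Nat.le_total i j with hj | hj
    · induction j, hj using Nat.le_induction with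
      | base => exact h0
      | succ j hj ih =>
        have := (C j).mape _ ih (by rw [List.length_map]; omega)
        rw [List.map_map] at this
        convert this using 1
        rw [List.map_inj_left]
        intro a _
        exact E_up G C i a j hj
    · refine Nat.decreasingInduction (motive := fun j _ =>
        s.map ((fun b : ∀ j, (G j).A => b j) ∘ E G C i) ∈ (G j).T) ?_ h0 hj
      intro j _ ih
      have := (C j).mapf _ ih
      rw [List.map_map] at this
      convert this using 1
      rw [List.map_inj_left]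
      intro a _
      exact (E_coh G C i a j).symm
  · intro b hb
    obtain ⟨a, _, rfl⟩ := List.mem_map.1 hb
    exact E_coh G C i a

theorem LT_tree : IsTree (LT G C) := by
  refine ⟨⟨fun i => by simpa using (G i).tree.nil, by simp⟩, ?_, ?_⟩
  · rintro a s ⟨h1, h2⟩
    exact ⟨fun i => (G i).tree.tail _ _ (h1 i), fun b hb => h2 b (List.mem_cons_of_mem _ hb)⟩
  · intro s hs
    obtain ⟨a, ha⟩ := (G (s.length + 1)).tree.ext _ (hs.1 (s.length + 1))
    refine ⟨E G C _ a, ?_⟩
    have h1 := mapE_mem G C ha (by simp; omega)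
    rw [List.map_cons, mapE_of_mem G C hs (by omega)] at h1
    exact h1

def Lim : GT := ⟨∀ i, (G i).A, LT G C, LT_tree G C⟩

variable (p : Bool) (σ : List (∀ j, (G j).A) → (∀ j, (G j).A))

noncomputable def S0 (i : ℕ) (s : List (G i).A) : (G i).A := by
  classical
  exact if s.length < 2 * (k + i) then σ (s.map (E G C i)) i else (G i).ex s

noncomputable def S : ℕ → (i : ℕ) → (List (G i).A → (G i).A)
  | 0, i => S0 G C σ i
  | d + 1, i => (C i).φ p (S d (i + 1))

variable {p σ}

theorem S0_leg (hσ : Leg (LT G C) p σ) (i : ℕ) : Leg (G i).T p (S0 G C σ i) := by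
  intro s hs hp
  unfold S0
  by_cases h : s.length < 2 * (k + i)
  · rw [if_pos h]
    have h1 := hσ _ (mapE_mem G C hs h.le) (by rw [List.length_map]; exact hp)
    have h2 := h1.1 i
    rw [List.map_cons, map_E_map] at h2
    exact h2
  · rw [if_neg h]; exact (G i).ex_mem hs

theorem S_leg (hσ : Leg (LT G C) p σ) (d : ℕ) : ∀ i, Leg (G i).T p (S G C p σ d i) := by
  induction d with
  | zero => intro i; exact S0_leg G C hσ i
  | succ d ih => intro i; exact (C i).leg p _ (ih (i + 1))

theorem E_succ (i : ℕ) (a : (G i).A) : E G C (i + 1) ((C i).e a) = E G C i a := by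
  refine thread_unique G C (i + 1) (E_coh G C _ _) (E_coh G C _ _) ?_ (E_up G C _ _)
    (fun j hj => E_up G C i a j (by omega))
  rw [E_self, E_up G C i a i le_rfl, E_self]

theorem S_succ (hσ : Leg (LT G C) p σ) (d : ℕ) : ∀ i, ∀ s ∈ (G i).T, s.length.bodd = p →
    s.length < 2 * (k + i + d) → S G C p σ (d + 1) i s = S G C p σ d i s := by
  induction d with
  | zero =>
    intro i s hs hp hl
    show (C i).φ p (S0 G C σ (i + 1)) s = S0 G C σ i s
    rw [(C i).low p _ (S0_leg G C hσ (i + 1)) s hs hp (by omega)]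
    unfold S0
    rw [if_pos (by rw [List.length_map]; omega), if_pos (by omega)]
    have h1 : (s.map (C i).e).map (E G C (i + 1)) = s.map (E G C i) := by
      rw [List.map_map, List.map_inj_left]
      intro a _
      exact E_succ G C i a
    rw [h1]
    have h2 := hσ _ (mapE_mem G C hs (by omega)) (by rw [List.length_map]; exact hp)
    exact h2.2 _ List.mem_cons_self i
  | succ d ih =>
    intro i s hs hp hl
    exact (C i).loc p _ _ (2 * (k + i + 1 + d) - 1) (S_leg G C hσ (d + 1) (i + 1))
      (S_leg G C hσ d (i + 1))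
      (fun t ht htp htl => ih (i + 1) t ht htp (by omega)) s hs hp (by omega)

theorem S_stable (hσ : Leg (LT G C) p σ) (i : ℕ) {s : List (G i).A} (hs : s ∈ (G i).T)
    (hp : s.length.bodd = p) {d d' : ℕ} (hd : s.length < 2 * (k + i + d)) (h : d ≤ d') :
    S G C p σ d' i s = S G C p σ d i s := by
  induction d', h using Nat.le_induction with
  | base => rfl
  | succ n hn ih => rw [S_succ G C hσ n i s hs hp (by omega), ih]

variable (p σ)

noncomputable def Sg (i : ℕ) (s : List (G i).A) : (G i).A := S G C p σ (s.length + 1) i s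

variable {p σ}

theorem Sg_eq (hσ : Leg (LT G C) p σ) (i : ℕ) {s : List (G i).A} (hs : s ∈ (G i).T)
    (hp : s.length.bodd = p) {d : ℕ} (hd : s.length < 2 * (k + i + d)) :
    Sg G C p σ i s = S G C p σ d i s := by
  unfold Sg
  rcases Nat.le_total d (s.length + 1) with h | h
  · exact S_stable G C hσ i hs hp hd h
  · exact (S_stable G C hσ i hs hp (by omega) h).symm

theorem Sg_leg (hσ : Leg (LT G C) p σ) (i : ℕ) : Leg (G i).T p (Sg G C p σ i) :=
  fun s hs hp => S_leg G C hσ (s.length + 1) i s hs hp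

theorem φ_Sg (hσ : Leg (LT G C) p σ) (i : ℕ) {s : List (G i).A} (hs : s ∈ (G i).T)
    (hp : s.length.bodd = p) : (C i).φ p (Sg G C p σ (i + 1)) s = Sg G C p σ i s := by
  rw [(C i).loc p _ (S G C p σ (s.length + 1) (i + 1)) s.length (Sg_leg G C hσ (i + 1))
    (S_leg G C hσ _ (i + 1)) (fun t ht htp htl => Sg_eq G C hσ (i + 1) ht htp (by omega))
    s hs hp le_rfl]
  rw [Sg_eq G C hσ i hs hp (d := s.length + 2) (by omega)]
  rfl

theorem Sg_zero (hσ : Leg (LT G C) p σ) (i : ℕ) {s : List (G i).A} (hs : s ∈ (G i).T)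
    (hp : s.length.bodd = p) (hl : s.length < 2 * (k + i)) :
    Sg G C p σ i s = σ (s.map (E G C i)) i := by
  rw [Sg_eq G C hσ i hs hp (d := 0) (by omega)]
  show S0 G C σ i s = _
  unfold S0
  rw [if_pos hl]

theorem S_loc {τ : List (∀ j, (G j).A) → (∀ j, (G j).A)} (hσ : Leg (LT G C) p σ)
    (hτ : Leg (LT G C) p τ) (n : ℕ)
    (h : ∀ s ∈ LT G C, s.length.bodd = p → s.length ≤ n → σ s = τ s) (d : ℕ) :
    ∀ i, ∀ s ∈ (G i).T, s.length.bodd = p → s.length ≤ n →
      S G C p σ d i s = S G C p τ d i s := by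
  induction d with
  | zero =>
    intro i s hs hp hl
    show S0 G C σ i s = S0 G C τ i s
    unfold S0
    by_cases h1 : s.length < 2 * (k + i)
    · rw [if_pos h1, if_pos h1, h _ (mapE_mem G C hs h1.le) (by rw [List.length_map]; exact hp)
        (by rw [List.length_map]; exact hl)]
    · rw [if_neg h1, if_neg h1]
  | succ d ih =>
    intro i s hs hp hl
    exact (C i).loc p _ _ n (S_leg G C hσ d (i + 1)) (S_leg G C hτ d (i + 1))
      (fun t ht htp htl => ih (i + 1) t ht htp htl) s hs hp hl

theorem lim_lift (hσ : Leg (LT G C) p σ) (x : ℕ → (G 0).A) (hx : Br (G 0).T x)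
    (hf : Fol p (Sg G C p σ 0) x) :
    ∃ x' : ℕ → (∀ j, (G j).A), Br (LT G C) x' ∧ Fol p σ x' ∧ ∀ n, x' n 0 = x n := by
  have step : ∀ i (y : {y : ℕ → (G i).A // Br (G i).T y ∧ Fol p (Sg G C p σ i) y}),
      ∃ z : {z : ℕ → (G (i + 1)).A // Br (G (i + 1)).T z ∧ Fol p (Sg G C p σ (i + 1)) z},
        ∀ n, (C i).f (z.1 n) = y.1 n := by
    rintro i ⟨y, hy, hyf⟩
    obtain ⟨z, hz, hzf, h⟩ := (C i).lift p _ (Sg_leg G C hσ (i + 1)) y hy (by
      intro n hn
      rw [φ_Sg G C hσ i (hy n) (by rw [length_pos]; exact hn)]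
      exact hyf n hn)
    exact ⟨⟨z, hz, hzf⟩, h⟩
  choose nx hnx using step
  set X : ∀ i, {y : ℕ → (G i).A // Br (G i).T y ∧ Fol p (Sg G C p σ i) y} := fun i =>
    Nat.rec (motive := fun i => {y : ℕ → (G i).A // Br (G i).T y ∧ Fol p (Sg G C p σ i) y})
      ⟨x, hx, hf⟩ (fun i y => nx i y) i with hX
  have hXs : ∀ i n, (C i).f ((X (i + 1)).1 n) = (X i).1 n := fun i n => hnx i (X i) n
  set x' : ℕ → (∀ j, (G j).A) := fun n i => (X i).1 n with hx'
  have hcoh : ∀ n, Coh G C (x' n) := fun n i => hXs i n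
  have hpos : ∀ n i, (pos x' n).map (fun b => b i) = pos (X i).1 n := by
    intro n i; rw [pos_map]
  have hbr : Br (LT G C) x' := by
    intro n
    refine ⟨fun i => ?_, ?_⟩
    · rw [hpos]; exact (X i).2.1 n
    · intro b hb
      induction n with
      | zero => simp at hb
      | succ n ih =>
        rw [pos_succ, List.mem_cons] at hb
        rcases hb with rfl | hb
        · exact hcoh n
        · exact ih hb
  refine ⟨x', hbr, ?_, fun n => rfl⟩
  intro n hn
  have hleg := hσ _ (hbr n) (by rw [length_pos]; exact hn)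
  have hc2 : Coh G C (σ (pos x' n)) := hleg.2 _ List.mem_cons_self
  have hlarge : ∀ i, n + 1 ≤ i → x' n i = σ (pos x' n) i := by
    intro i hi
    have h1 := (X i).2.2 n hn
    show (X i).1 n = _
    rw [h1, Sg_zero G C hσ i ((X i).2.1 n) (by rw [length_pos]; exact hn)
      (by rw [length_pos]; omega), ← hpos, mapE_of_mem G C (hbr n) (by rw [length_pos]; omega)]
  funext i
  rcases Nat.le_total (n + 1) i with h | h
  · exact hlarge i h
  · refine Nat.decreasingInduction (motive := fun i _ => x' n i = σ (pos x' n) i) ?_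
      (hlarge _ le_rfl) h
    intro j _ ih
    rw [← hcoh n j, ← hc2 j, ih]

/-- the inverse limit is a covering of the bottom game -/
noncomputable def limCov : Cov k (G 0) (Lim G C) where
  f := fun b => b 0
  e := E G C 0
  fe := E_self G C 0
  mapf := fun s hs => hs.1 0
  mape := fun s hs hl => mapE_mem G C hs (i := 0) (le_of_le_of_eq hl (by rw [Nat.add_zero]))
  uniq := fun s hs hl => mapE_of_mem G C hs (i := 0) (le_of_le_of_eq hl (by rw [Nat.add_zero]))
  φ := fun p σ => Sg G C p σ 0
  leg := fun p σ h => Sg_leg G C h 0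
  loc := fun p σ τ n hσ hτ h s hs hp hl => S_loc G C hσ hτ n h _ 0 s hs hp hl
  low := fun p σ hσ s hs hp hl => Sg_zero G C hσ 0 hs hp (by omega)
  lift := fun p σ hσ x hx hf => lim_lift G C hσ x hx hf

end Limit

end V11256.BD
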