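import Mathlib
import Pool.Agent.V11256.BD.L
import Pool.Agent.V11256.BD.F

/-!
# Borel determinacy, part H: Martin's theorem
-/

namespace V11256.BD

theorem Clp.congr {A : Type} {T : Set (List A)} {W W' : Set (ℕ → A)} (h : Clp T W)
    (hW : ∀ x, Br T x → (x ∈ W ↔ x ∈ W')) : Clp T W' := by
  intro x hx
  obtain ⟨n, hn⟩ := h x hx
  exact ⟨n, fun y hy hyx => by rw [← hW y hy, ← hW x hx]; exact hn y hy hyx⟩

theorem unravel_clp (k : ℕ) (G : GT) (C : Set (List G.A)) (hC : ∀ a s, a :: s ∈ C → s ∈ C) :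
    Clp (TT k G.T C) {x | (fun n => (x n).1) ∈ {x : ℕ → G.A | ∀ n, pos x n ∈ C}} := by
  have hdown : ∀ (x : ℕ → G.A) (m n : ℕ), m ≤ n → pos x n ∈ C → pos x m ∈ C := by
    intro x m n hmn
    induction n, hmn using Nat.le_induction with
    | base => exact id
    | succ n _ ih => exact fun h => ih (hC _ _ h)
  -- the option declared at time `2k+1` decides
  have key : ∀ x, Br (TT k G.T C) x →
      ((∀ n, pos (fun m => (x m).1) n ∈ C) ↔ (x (2 * k + 1)).2.2 = none) := by
    intro x hx
    have hacc : ∀ n, 2 * k + 2 ≤ n →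
        acc k G.T (pos x n) = acc k G.T (pos x (2 * k + 2)) := by
      intro n hn
      induction n, hn using Nat.le_induction with
      | base => rfl
      | succ n hn ih => rw [pos_succ, acc_high (by rw [length_pos]; omega), ih]
    have hq : Vd k G.T C (pos x (2 * k + 2)) := (show _ from hx (2 * k + 2))
    have h2 := hq.2.two (by rw [length_pos])
    have hmem : ∀ n, 2 * k + 2 ≤ n → pos (fun m => (x m).1) n ∈
        acc k G.T (pos x (2 * k + 2)) := by
      intro n hn
      rw [← hacc n hn]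
      have := map_acc G.tree (show Vd k G.T C (pos x n) from hx n)
      rwa [pos_map] at this
    rcases h2 with ⟨w, h3, h4, h5, h6⟩ | ⟨S', h3, h4, h5⟩
    · have hs : (x (2 * k + 1)).2 = (∅, some w) := h3
      have ha : acc k G.T (pos x (2 * k + 2)) =
          {q | q ∈ G.T ∧ (q <:+ w ∨ w <:+ q)} := by
        rw [pos_succ]
        unfold acc
        rw [if_pos (length_pos _ _), hs]
      rw [hs]
      simp only [reduceCtorEq, iff_false]
      intro hall
      have h7 := hmem (max w.length (2 * k + 2)) (le_max_right _ _)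
      rw [ha] at h7
      have h8 : w <:+ pos (fun m => (x m).1) (max w.length (2 * k + 2)) := by
        rcases h7.2 with h8 | h8
        · have := h8.eq_of_length_le (by rw [length_pos]; exact le_max_left _ _)
          exact ⟨[], by rw [List.nil_append]; exact this.symm⟩
        · exact h8
      exact h6 (by rw [(suffix_pos h8).1]; exact hall _)
    · have hs : (x (2 * k + 1)).2 = (S', none) := h3
      have ha : acc k G.T (pos x (2 * k + 2)) = S' := by
        rw [pos_succ]
        unfold acc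
        rw [if_pos (length_pos _ _), hs]
      rw [hs]
      simp only [iff_true]
      intro n
      refine hdown _ n (max n (2 * k + 2)) (le_max_left _ _) ?_
      have := hmem (max n (2 * k + 2)) (le_max_right _ _)
      rw [ha] at this
      exact h5 this
  intro x hx
  refine ⟨2 * k + 2, fun y hy hyx => ?_⟩
  show (∀ n, pos (fun m => (y m).1) n ∈ C) ↔ (∀ n, pos (fun m => (x m).1) n ∈ C)
  rw [key x hx, key y hy, pos_inj hyx (2 * k + 1) (by omega)]

/-- `W` can be unravelled in every game mapping to `G` -/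
def Unr (G : GT) (W : Set (ℕ → G.A)) : Prop :=
  ∀ (G' : GT) (h : G'.A → G.A), (∀ s ∈ G'.T, s.map h ∈ G.T) → ∀ k : ℕ,
    ∃ (G'' : GT) (c : Cov k G' G''), Clp G''.T {x | (fun n => h (c.f (x n))) ∈ W}

theorem Unr.compl {G : GT} {W : Set (ℕ → G.A)} (h : Unr G W) : Unr G Wᶜ := by
  intro G' f hf k
  obtain ⟨G'', c, hc⟩ := h G' f hf k
  exact ⟨G'', c, hc.compl⟩

/-- relatively open sets can be unravelled -/
theorem exists_unravel_open {G : GT} (k : ℕ) {U : Set (ℕ → G.A)}
    (hU : ∀ x, Br G.T x → x ∈ U → ∃ n, ∀ y, Br G.T y → pos y n = pos x n → y ∈ U) :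
    ∃ (G' : GT) (c : Cov k G G'), Clp G'.T {x | (fun n => c.f (x n)) ∈ U} := by
  set C : Set (List G.A) := {s | ∃ y, Br G.T y ∧ pos y s.length = s ∧ y ∉ U} with hC
  have hCt : ∀ a s, a :: s ∈ C → s ∈ C := by
    rintro a s ⟨y, hy, h1, h2⟩
    rw [List.length_cons, pos_succ, List.cons.injEq] at h1
    exact ⟨y, hy, h1.2, h2⟩
  refine ⟨_, unravel k G C, ?_⟩
  refine (unravel_clp k G C hCt).compl.congr ?_
  intro x hx
  have hx' : Br G.T (fun n => (x n).1) := by
    intro n
    have := (unravel k G C).mapf _ (hx n)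
    have h2 : (pos x n).map Prod.fst ∈ G.T := this
    rwa [pos_map] at h2
  show (¬ ∀ n, pos (fun m => (x m).1) n ∈ C) ↔ (fun n => (x n).1) ∈ U
  constructor
  · intro h
    by_contra hcon
    exact h (fun n => ⟨_, hx', by rw [length_pos], hcon⟩)
  · intro h hall
    obtain ⟨n, hn⟩ := hU _ hx' h
    obtain ⟨y, hy, h1, h2⟩ := hall n
    rw [length_pos] at h1
    exact h2 (hn y hy h1)

theorem Unr_of_open {G : GT} {U : Set (ℕ → G.A)}
    (hU : ∀ x, Br G.T x → x ∈ U → ∃ n, ∀ y, Br G.T y → pos y n = pos x n → y ∈ U) :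
    Unr G U := by
  intro G' h hm k
  refine exists_unravel_open (G := G') (U := {x | (fun n => h (x n)) ∈ U}) k ?_
  intro x hx hxU
  have hx' : Br G.T (fun n => h (x n)) := fun n => by rw [← pos_map]; exact hm _ (hx n)
  obtain ⟨n, hn⟩ := hU _ hx' hxU
  refine ⟨n, fun y hy hyx => ?_⟩
  have hy' : Br G.T (fun n => h (y n)) := fun n => by rw [← pos_map]; exact hm _ (hy n)
  exact hn _ hy' (by rw [← pos_map h y, ← pos_map h x, hyx])

structure St (G' : GT) where
  G : GT
  F : G.A → G'.A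
  hF : ∀ s ∈ G.T, s.map F ∈ G'.T

theorem Unr.iUnion {G : GT} {W : ℕ → Set (ℕ → G.A)} (hW : ∀ i, Unr G (W i)) :
    Unr G (⋃ i, W i) := by
  intro G' h hm k
  have hcomp : ∀ S : St G', ∀ s ∈ S.G.T, s.map (h ∘ S.F) ∈ G.T := by
    intro S s hs
    rw [← List.map_map]
    exact hm _ (S.hF s hs)
  choose nG nc hn using fun (i : ℕ) (S : St G') => hW i S.G (h ∘ S.F) (hcomp S) (k + i)
  set nS : ℕ → St G' → St G' := fun i S => ⟨nG i S, S.F ∘ (nc i S).f, fun s hs => by
    rw [← List.map_map]; exact S.hF _ ((nc i S).mapf s hs)⟩ with hnS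
  set SS : ℕ → St G' := fun i =>
    Nat.rec (motive := fun _ => St G') ⟨G', id, fun s hs => by simpa using hs⟩
      (fun i S => nS i S) i with hSS
  set GG : ℕ → GT := fun i => (SS i).G with hGG
  set CC : ∀ i, Cov (k + i) (GG i) (GG (i + 1)) := fun i => nc i (SS i) with hCC
  have hF : ∀ (b : ∀ i, (GG i).A), Coh GG CC b → ∀ i, (SS i).F (b i) = b 0 := by
    intro b hb i
    induction i with
    | zero => rfl
    | succ i ih =>
      have h1 : (SS (i + 1)).F (b (i + 1)) = (SS i).F ((CC i).f (b (i + 1))) := rfl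
      rw [h1, hb i, ih]
  have hclp : ∀ i, Clp (Lim GG CC).T {x | (fun n => h (x n 0)) ∈ W i} := by
    intro i
    have h1 := hn i (SS i)
    have h2 : Clp (Lim GG CC).T {x | (fun n => (x n (i + 1) : (GG (i + 1)).A)) ∈
        {x : ℕ → (GG (i + 1)).A | (fun n => (h ∘ (SS i).F) ((CC i).f (x n))) ∈ W i}} :=
      Clp.comap (G := GG (i + 1)) (G' := Lim GG CC) (fun b => b (i + 1))
        (fun s hs => hs.1 (i + 1)) h1
    refine h2.congr ?_
    intro x hx
    have h3 : ∀ n, (h ∘ (SS i).F) ((CC i).f (x n (i + 1))) = h (x n 0) := by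
      intro n
      have hc : Coh GG CC (x n) := (hx (n + 1)).2 _ List.mem_cons_self
      rw [hc i, Function.comp_apply, hF _ hc i]
    show (fun n => (h ∘ (SS i).F) ((CC i).f (x n (i + 1)))) ∈ W i ↔
      (fun n => h (x n 0)) ∈ W i
    rw [funext h3]
  obtain ⟨L', c, hc⟩ := exists_unravel_open (G := Lim GG CC) k
    (U := {x | (fun n => h (x n 0)) ∈ ⋃ i, W i}) (by
    intro x hx hxU
    obtain ⟨i, hi⟩ := Set.mem_iUnion.1 hxU
    obtain ⟨n, hn'⟩ := hclp i x hx
    exact ⟨n, fun y hy hyx => Set.mem_iUnion.2 ⟨i, (hn' y hy hyx).2 hi⟩⟩)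
  exact ⟨L', (limCov GG CC).comp c, hc⟩

theorem Unr.det {G : GT} {W : Set (ℕ → G.A)} (h : Unr G W) : Det G.T W := by
  obtain ⟨G'', c, hc⟩ := h G id (fun s hs => by simpa using hs) 0
  exact c.det (det_of_clp G''.tree hc)

/-- the full tree -/
def fullGT (A : Type) [Nonempty A] : GT :=
  ⟨A, Set.univ, ⟨trivial, fun _ _ _ => trivial, fun _ _ => ⟨Classical.arbitrary A, trivial⟩⟩⟩

theorem pos_eq_iff {A : Type} {x y : ℕ → A} {n : ℕ} :
    pos y n = pos x n ↔ ∀ m < n, y m = x m := ⟨pos_inj, pos_congr⟩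

/-- **Borel determinacy** (Martin): a game on a nonempty discrete set of moves with Borel payoff
is determined. -/
theorem borel_determinacy {A : Type} [Nonempty A] [TopologicalSpace A] [DiscreteTopology A]
    (W : Set (ℕ → A)) (hW : @MeasurableSet _ (borel (ℕ → A)) W) :
    (∃ σ : List A → A, ∀ x : ℕ → A,
      (∀ n : ℕ, n.bodd = false → x n = σ (pos x n)) → x ∈ W) ∨
    (∃ σ : List A → A, ∀ x : ℕ → A,
      (∀ n : ℕ, n.bodd = true → x n = σ (pos x n)) → x ∉ W) := by
  have hu : Unr (fullGT A) W := by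
    have hopen : ∀ U : Set (ℕ → A), IsOpen U → Unr (fullGT A) U := by
      intro U hU
      refine Unr_of_open (G := fullGT A) ?_
      intro x _ hx
      obtain ⟨I, u, hu1, hu2⟩ := isOpen_pi_iff.1 hU x hx
      refine ⟨I.sup id + 1, fun y _ hy => hu2 ?_⟩
      intro i hi
      have h1 : i ≤ I.sup id := Finset.le_sup (f := id) hi
      have h2 := pos_eq_iff.1 hy i (by omega)
      rw [h2]
      exact (hu1 i hi).2
    have hW' : MeasurableSpace.GenerateMeasurable {s : Set (ℕ → A) | IsOpen s} W := hW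
    clear hW
    induction hW' with
    | basic u hu => exact hopen u hu
    | empty => exact hopen ∅ isOpen_empty
    | compl t ht ih => exact ih.compl
    | iUnion f hf ih => exact Unr.iUnion ih
  rcases hu.det with ⟨σ, _, h⟩ | ⟨σ, _, h⟩
  · exact Or.inl ⟨σ, fun x hx => h x (fun _ => trivial) hx⟩
  · exact Or.inr ⟨σ, fun x hx => h x (fun _ => trivial) hx⟩

/-- the version for the product σ-algebra -/
theorem pi_determinacy {A : Type} [Nonempty A]
    (W : Set (ℕ → A)) (hW : @MeasurableSet _ (@MeasurableSpace.pi ℕ (fun _ => A) (fun _ => ⊤)) W) :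
    (∃ σ : List A → A, ∀ x : ℕ → A,
      (∀ n : ℕ, n.bodd = false → x n = σ (pos x n)) → x ∈ W) ∨
    (∃ σ : List A → A, ∀ x : ℕ → A,
      (∀ n : ℕ, n.bodd = true → x n = σ (pos x n)) → x ∉ W) := by
  let _ : TopologicalSpace A := ⊥
  have _ : DiscreteTopology A := ⟨rfl⟩
  refine borel_determinacy W ?_
  have hle : @MeasurableSpace.pi ℕ (fun _ => A) (fun _ => ⊤) ≤ borel (ℕ → A) := by
    refine iSup_le fun i => ?_
    rintro s ⟨t, _, rfl⟩
    exact MeasurableSpace.measurableSet_generateFrom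
      ((isOpen_discrete t).preimage (continuous_apply i))
  exact hle W hW

end V11256.BD
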